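import Pool.Agent.H37R3.K5.Free

/-! Six-vertex flags with a product term: the counting inequality behind the certificates. -/

set_option autoImplicit false
set_option maxRecDepth 100000
set_option maxHeartbeats 4000000
open Finset

namespace Pool.Agent.U348.K5
open Pool.Agent.H122R2.N6 Pool.Agent.H37R3.Pen Pool.Agent.H37R3.K5

/-- the product of the triple `acd` of the first code and `bef` of the second, symmetrised -/
def ww (i j : ℕ) : ℕ :=
  Nat.add (Nat.mul (Nat.mod (Nat.shiftRight i 2) 2) (Nat.mod (Nat.shiftRight j 3) 2))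
    (Nat.mul (Nat.mod (Nat.shiftRight i 3) 2) (Nat.mod (Nat.shiftRight j 2) 2))

theorem bit2_cd {x y z w : ℕ} (hx : Bt x) (hy : Bt y) (hz : Bt z) (hw : Bt w) :
    Nat.mod (Nat.shiftRight (cd4 x y z w) 2) 2 = z := by
  rcases hx with rfl | rfl <;> rcases hy with rfl | rfl <;> rcases hz with rfl | rfl <;>
    rcases hw with rfl | rfl <;> rfl

theorem bit3_cd {x y z w : ℕ} (hx : Bt x) (hy : Bt y) (hz : Bt z) (hw : Bt w) :
    Nat.mod (Nat.shiftRight (cd4 x y z w) 3) 2 = w := by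
  rcases hx with rfl | rfl <;> rcases hy with rfl | rfl <;> rcases hz with rfl | rfl <;>
    rcases hw with rfl | rfl <;> rfl

section
variable {V : Type} [Fintype V] (E : V → V → V → ℕ)

/-- the number of ordered triples -/
def T3 : ℤ := ∑ a, ∑ b, ∑ c, (E a b c : ℤ)

theorem prod_sum (hE : Sy E) (κ : ℤ) :
    ∑ a : V, ∑ b : V, ∑ c : V, ∑ d : V, ∑ e : V, ∑ f : V,
      κ * ((ww (cd4 (E a b c) (E a b d) (E a c d) (E b c d))
        (cd4 (E a b e) (E a b f) (E a e f) (E b e f)) : ℕ) : ℤ) = 2 * κ * T3 E ^ 2 := by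
  have e0 : ∀ a b c d e f : V, κ * ((ww (cd4 (E a b c) (E a b d) (E a c d) (E b c d))
        (cd4 (E a b e) (E a b f) (E a e f) (E b e f)) : ℕ) : ℤ) =
      κ * (((E a c d : ℕ) : ℤ) * ((E b e f : ℕ) : ℤ)) + κ * (((E b c d : ℕ) : ℤ) * ((E a e f : ℕ) : ℤ)) := by
    intro a b c d e f
    have hw : ww (cd4 (E a b c) (E a b d) (E a c d) (E b c d))
        (cd4 (E a b e) (E a b f) (E a e f) (E b e f)) = E a c d * E b e f + E b c d * E a e f := by
      unfold ww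
      rw [bit2_cd (hE.b a b c) (hE.b a b d) (hE.b a c d) (hE.b b c d),
        bit3_cd (hE.b a b c) (hE.b a b d) (hE.b a c d) (hE.b b c d),
        bit2_cd (hE.b a b e) (hE.b a b f) (hE.b a e f) (hE.b b e f),
        bit3_cd (hE.b a b e) (hE.b a b f) (hE.b a e f) (hE.b b e f)]
      rfl
    rw [hw]
    push_cast
    ring
  have e1 : ∀ a b : V, ∑ c : V, ∑ d : V, ∑ e : V, ∑ f : V,
      κ * (((E a c d : ℕ) : ℤ) * ((E b e f : ℕ) : ℤ)) =
      κ * ((∑ c, ∑ d, (E a c d : ℤ)) * ∑ e, ∑ f, (E b e f : ℤ)) := by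
    intro a b
    simp only [← mul_sum, sum_mul]
  calc _ = ∑ a : V, ∑ b : V, (κ * ((∑ c, ∑ d, (E a c d : ℤ)) * ∑ e, ∑ f, (E b e f : ℤ))
        + κ * ((∑ c, ∑ d, (E b c d : ℤ)) * ∑ e, ∑ f, (E a e f : ℤ))) := by
        refine sum_congr rfl fun a _ => sum_congr rfl fun b _ => ?_
        simp only [e0, sum_add_distrib]
        rw [e1 a b, e1 b a]
    _ = 2 * κ * T3 E ^ 2 := by
        unfold T3
        set g : V → ℤ := fun a => ∑ c, ∑ d, (E a c d : ℤ) with hg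
        have e2 : ∀ a b : V, κ * (g a * g b) + κ * (g b * g a) = 2 * κ * g a * g b := by
          intro a b; ring
        calc _ = ∑ a : V, ∑ b : V, 2 * κ * g a * g b :=
              sum_congr rfl fun a _ => sum_congr rfl fun b _ => e2 a b
          _ = _ := by
              simp only [← mul_sum, ← sum_mul]
              ring

theorem lower2u (hE : Sy E) (K : ℕ) (q2 : ℕ → ℕ → ℕ) (W : ℕ → ℕ) (l : ℕ → ℕ → ℕ) (B : ℤ)
    (t : ℕ → ℤ) (κ : ℤ)
    (hq2 : ∀ i j, i < 16 → j < 16 → (q2 i j : ℤ) =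
      ∑ k ∈ range K, (W k : ℤ) * ((l i k : ℤ) - B) * ((l j k : ℤ) - B)
        + (t (kk i j) + κ * (ww i j : ℤ))) :
    T2 E t + 2 * κ * T3 E ^ 2
      ≤ ∑ x : Fin 6 → V, (F2 E q2 (x 0) (x 1) (x 2) (x 3) (x 4) (x 5) : ℤ) := by
  rw [conv6 (fun a b c d e f => (F2 E q2 a b c d e f : ℤ)), ← prod_sum E hE κ]
  have e1 : T2 E t + ∑ a : V, ∑ b : V, ∑ c : V, ∑ d : V, ∑ e : V, ∑ f : V,
      κ * ((ww (cd4 (E a b c) (E a b d) (E a c d) (E b c d))
        (cd4 (E a b e) (E a b f) (E a e f) (E b e f)) : ℕ) : ℤ)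
      = ∑ a : V, ∑ b : V, ∑ c : V, ∑ d : V, ∑ e : V, ∑ f : V,
        (t (E a b c + E a b d + (E a b e + E a b f)) +
          κ * ((ww (cd4 (E a b c) (E a b d) (E a c d) (E b c d))
        (cd4 (E a b e) (E a b f) (E a e f) (E b e f)) : ℕ) : ℤ)) := by
    unfold T2
    simp only [sum_add_distrib]
  rw [e1]
  refine sum_le_sum fun a _ => sum_le_sum fun b _ => ?_
  have e2 : ∀ c d e f : V, (F2 E q2 a b c d e f : ℤ) =
      ∑ k ∈ range K, (W k : ℤ) *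
        ((l (cd4 (E a b c) (E a b d) (E a c d) (E b c d)) k : ℤ) - B) *
        ((l (cd4 (E a b e) (E a b f) (E a e f) (E b e f)) k : ℤ) - B)
      + (t (E a b c + E a b d + (E a b e + E a b f)) +
          κ * ((ww (cd4 (E a b c) (E a b d) (E a c d) (E b c d))
        (cd4 (E a b e) (E a b f) (E a e f) (E b e f)) : ℕ) : ℤ)) := fun c d e f => by
    have h := hq2 _ _ (cd4_lt (hE.b a b c) (hE.b a b d) (hE.b a c d) (hE.b b c d))
      (cd4_lt (hE.b a b e) (hE.b a b f) (hE.b a e f) (hE.b b e f))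
    have hk : kk (cd4 (E a b c) (E a b d) (E a c d) (E b c d))
        (cd4 (E a b e) (E a b f) (E a e f) (E b e f)) = E a b c + E a b d + (E a b e + E a b f) := by
      unfold kk
      rw [half_cd (hE.b a b c) (hE.b a b d) (hE.b a c d) (hE.b b c d),
        half_cd (hE.b a b e) (hE.b a b f) (hE.b a e f) (hE.b b e f)]
      rfl
    rw [hk] at h
    exact h
  have p := psd (ι := V × V) K W
    (fun k q => (l (cd4 (E a b q.1) (E a b q.2) (E a q.1 q.2) (E b q.1 q.2)) k : ℤ) - B)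
  simp only [Fintype.sum_prod_type] at p
  have e3 : ∑ c : V, ∑ d : V, ∑ e : V, ∑ f : V, (F2 E q2 a b c d e f : ℤ) =
      (∑ c : V, ∑ d : V, ∑ e : V, ∑ f : V, ∑ k ∈ range K, (W k : ℤ) *
        ((l (cd4 (E a b c) (E a b d) (E a c d) (E b c d)) k : ℤ) - B) *
        ((l (cd4 (E a b e) (E a b f) (E a e f) (E b e f)) k : ℤ) - B)) +
      ∑ c : V, ∑ d : V, ∑ e : V, ∑ f : V, (t (E a b c + E a b d + (E a b e + E a b f)) +
          κ * ((ww (cd4 (E a b c) (E a b d) (E a c d) (E b c d))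
        (cd4 (E a b e) (E a b f) (E a e f) (E b e f)) : ℕ) : ℤ)) := by
    simp only [← sum_add_distrib]
    exact sum_congr rfl fun c _ => sum_congr rfl fun d _ => sum_congr rfl fun e _ =>
      sum_congr rfl fun f _ => e2 c d e f
  rw [e3]
  linarith

theorem boundU (hE : Sy E) (K K2 C : ℕ) (q4 : ℕ → ℕ → ℕ → ℕ) (W : ℕ → ℕ → ℕ)
    (l : ℕ → ℕ → ℕ → ℕ) (q2 : ℕ → ℕ → ℕ) (W2 : ℕ → ℕ) (l2 : ℕ → ℕ → ℕ) (B : ℤ)
    (s4 t : ℕ → ℤ) (κ : ℤ)
    (hq4 : ∀ c i j, c < 16 → i < 64 → j < 64 → (q4 c i j : ℤ) =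
      ∑ k ∈ range K, (W c k : ℤ) * ((l c i k : ℤ) - B) * ((l c j k : ℤ) - B) + s4 c)
    (hq2 : ∀ i j, i < 16 → j < 16 → (q2 i j : ℤ) =
      ∑ k ∈ range K2, (W2 k : ℤ) * ((l2 i k : ℤ) - B) * ((l2 j k : ℤ) - B)
        + (t (kk i j) + κ * (ww i j : ℤ)))
    (hleaf : ∀ a b c d e f : V, L4 E q4 a b c d e f + L2 E q2 a b c d e f ≤ C) :
    15 * ((Fintype.card V : ℤ) ^ 2 * Sv E s4) + 45 * T2 E t + 90 * κ * T3 E ^ 2
      ≤ C * (Fintype.card V : ℤ) ^ 6 := by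
  have A4 := lower4 E hE K q4 W l B 0 s4 (fun c i j hc hi hj => by
    rw [hq4 c i j hc hi hj, zero_add])
  have A2 := lower2u E hE K2 q2 W2 l2 B t κ hq2
  have key : ∑ x : Fin 6 → V, ((L4 E q4 (x 0) (x 1) (x 2) (x 3) (x 4) (x 5) : ℤ)
      + (L2 E q2 (x 0) (x 1) (x 2) (x 3) (x 4) (x 5) : ℤ)) ≤ C * (Fintype.card V : ℤ) ^ 6 := by
    calc _ ≤ ∑ x : Fin 6 → V, (C : ℤ) :=
          sum_le_sum fun x _ => by exact_mod_cast hleaf (x 0) (x 1) (x 2) (x 3) (x 4) (x 5)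
      _ = C * (Fintype.card V : ℤ) ^ 6 := by
          rw [sum_const, card_univ, Fintype.card_fun, Fintype.card_fin, nsmul_eq_mul]
          push_cast
          ring
  rw [sum_add_distrib, sumL4 E q4, sumL2 E q2] at key
  linarith

/-- power sums of the codegrees -/
def Dk (k : ℕ) : ℤ := ∑ a, ∑ b, (∑ c, (E a b c : ℤ)) ^ k

theorem T3_eq : T3 E = Dk E 1 := by
  unfold T3 Dk
  simp only [pow_one]

/-- the pair functional in terms of the power sums of the codegrees -/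
theorem T2_eq (hE : Sy E) (t : ℕ → ℤ) (A0 A1 A2 A3 A4 : ℤ)
    (h0 : t 0 = A0) (h1 : t 1 = A0 + A1) (h2 : t 2 = A0 + 2 * A1 + A2)
    (h3 : t 3 = A0 + 3 * A1 + 3 * A2 + A3) (h4 : t 4 = A0 + 4 * A1 + 6 * A2 + 4 * A3 + A4) :
    T2 E t = A0 * (Fintype.card V : ℤ) ^ 6 + 4 * A1 * (Fintype.card V : ℤ) ^ 3 * Dk E 1
      + 6 * A2 * (Fintype.card V : ℤ) ^ 2 * Dk E 2
      + 4 * A3 * (Fintype.card V : ℤ) * Dk E 3 + A4 * Dk E 4 := by
  have e1 : T2 E t = ∑ a : V, ∑ b : V, (A0 * (Fintype.card V : ℤ) ^ 4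
      + 4 * A1 * (Fintype.card V : ℤ) ^ 3 * (∑ c, (E a b c : ℤ)) ^ 1
      + 6 * A2 * (Fintype.card V : ℤ) ^ 2 * (∑ c, (E a b c : ℤ)) ^ 2
      + 4 * A3 * (Fintype.card V : ℤ) * (∑ c, (E a b c : ℤ)) ^ 3 + A4 * (∑ c, (E a b c : ℤ)) ^ 4) := by
    unfold T2
    refine sum_congr rfl fun a _ => sum_congr rfl fun b _ => ?_
    rw [pow_one]
    exact mom (E a b) (hE.b a b) t A0 A1 A2 A3 A4 h0 h1 h2 h3 h4
  rw [e1]
  unfold Dk
  simp only [sum_add_distrib, ← mul_sum, sum_const, card_univ, nsmul_eq_mul]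
  ring

/-- no penalty: the leaf inequality for all six-tuples -/
theorem leafU (hE : Sy E) (hK : NoK5 E) {q4 : ℕ → ℕ → ℕ → ℕ} {q2 : ℕ → ℕ → ℕ} {C : ℕ}
    (hs4 : sym4 q4 = true) (hs2 : sym2 q2 = true)
    (hc : ∀ b012 b013 b023 b123 b014 b024 b124 b034 b134 b234 : ℕ, Bt b012 → Bt b013 → Bt b023 → Bt b123 → Bt b014 → Bt b024 → Bt b124 → Bt b034 → Bt b134 → Bt b234 → tg5 b012 b013 b023 b123 b014 b024 b124 b034 b134 b234 = 4 → chk5 q4 q2 C 0 [] b012 b013 b023 b123 b014 b024 b124 b034 b134 b234 = true)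
    (a b c d e f : V) : L4 E q4 a b c d e f + L2 E q2 a b c d e f ≤ C := by
  have h := leaf5_all (X := fun _ _ _ _ _ _ => 0) hE hK (fun _ _ _ _ _ _ => rfl)
    (fun _ _ _ _ _ _ => rfl) (fun _ _ _ _ _ _ => rfl) (fun _ _ _ _ _ _ => rfl)
    (fun a b c d e f h => absurd h (by simp [mem, anyL])) hs4 hs2 hc a b c d e f
  simpa using h

end
end Pool.Agent.U348.K5
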