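import Pool.Agent.U348.K5.Lp5
import Pool.Agent.H122R2.K5.Lower5

/-! The complete bipartite 3-graphs with parts of any sizes. -/

set_option autoImplicit false
open Finset Filter Topology
open scoped Classical

namespace Pool.Agent.U348.K5
open Pool.Agent.H122R2.N6 Pool.Agent.H37R3.K5 Pool.Agent.H122R2.K5

theorem card_PA' {n m : ℕ} (h : m ≤ n) : (PA n m).card = m := by
  unfold PA
  have : (univ.filter fun i : Fin n => i.val < m) =
      (univ : Finset (Fin m)).map (Fin.castLEEmb h) := by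
    ext i
    simp only [mem_filter, mem_univ, true_and, Finset.mem_map]
    constructor
    · intro h
      exact ⟨⟨i.val, h⟩, rfl⟩
    · rintro ⟨j, rfl⟩
      exact j.2
  rw [this, card_map, card_univ, Fintype.card_fin]

theorem card_PB' {n m : ℕ} (h : m ≤ n) : (PB n m).card = n - m := by
  have h2 : (PA n m).card + (PB n m).card = n := by
    unfold PA PB
    rw [card_filter_add_card_filter_not, card_univ, Fintype.card_fin]
  have := card_PA' h
  omega

theorem bip_lower {n m : ℕ} (hm : m ≤ n) (k : ℕ) :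
    m.choose 2 * (n - m) ^ k + (n - m).choose 2 * m ^ k + m * (n - m) * (n - 2) ^ k
      ≤ ∑ P ∈ (univ : Finset (Fin n)).powersetCard 2, cdg (bip n m) P ^ k := by
  set A := PA n m with hA
  set B := PB n m with hB
  set U := (univ : Finset (Fin n)).powersetCard 2 with hU
  have cA : A.card = m := card_PA' hm
  have cB : B.card = n - m := card_PB' hm
  set UA := A.powersetCard 2 with hUA
  set UB := B.powersetCard 2 with hUB
  have sA : UA ⊆ U := powersetCard_mono (subset_univ _)
  have sB : UB ⊆ U := powersetCard_mono (subset_univ _)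
  have dAB : Disjoint UA UB := by
    rw [disjoint_left]
    intro P h1 h2
    have h1' := mem_powersetCard.mp h1
    have h2' := mem_powersetCard.mp h2
    obtain ⟨x, hx⟩ : P.Nonempty := by rw [← card_pos, h1'.2]; norm_num
    exact not_both _ _ x (h1'.1 hx) (h2'.1 hx)
  set X := (U \ UA) \ UB with hX
  have sX : UB ⊆ U \ UA := fun P hP => mem_sdiff.mpr ⟨sB hP, fun h => disjoint_left.mp dAB h hP⟩
  have e1 : ∑ P ∈ U, cdg (bip n m) P ^ k =
      ∑ P ∈ X, cdg (bip n m) P ^ k + ∑ P ∈ UB, cdg (bip n m) P ^ k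
        + ∑ P ∈ UA, cdg (bip n m) P ^ k := by
    rw [sum_sdiff sX, sum_sdiff sA]
  have nA : UA.card = m.choose 2 := by rw [hUA, card_powersetCard, cA]
  have nB : UB.card = (n - m).choose 2 := by rw [hUB, card_powersetCard, cB]
  -- mixed pairs
  have nX : m * (n - m) ≤ X.card := by
    have e0 : m * (n - m) = (A ×ˢ B).card := by rw [card_product, cA, cB]
    rw [e0]
    refine card_le_card_of_injOn (fun p : Fin n × Fin n => ({p.1, p.2} : Finset (Fin n))) ?_ ?_
    · intro p hp
      rw [mem_coe, mem_product] at hp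
      have hne : p.1 ≠ p.2 := fun h => not_both n m p.1 hp.1 (h ▸ hp.2)
      refine Finset.mem_coe.mpr (Finset.mem_sdiff.mpr ⟨Finset.mem_sdiff.mpr
        ⟨mem_powersetCard.mpr ⟨subset_univ _, card_pair hne⟩, fun h => ?_⟩, fun h => ?_⟩)
      · exact not_both n m p.2 ((mem_powersetCard.mp h).1 (by simp)) hp.2
      · exact not_both n m p.1 hp.1 ((mem_powersetCard.mp h).1 (by simp))
    · intro p hp q hq hpq
      rw [mem_coe, mem_product] at hp hq
      have h1 : p.1 ∈ ({q.1, q.2} : Finset (Fin n)) := by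
        rw [← show ({p.1, p.2} : Finset (Fin n)) = {q.1, q.2} from hpq]; simp
      have h2 : p.2 ∈ ({q.1, q.2} : Finset (Fin n)) := by
        rw [← show ({p.1, p.2} : Finset (Fin n)) = {q.1, q.2} from hpq]; simp
      simp only [mem_insert, mem_singleton] at h1 h2
      have h3 : p.1 = q.1 := by
        rcases h1 with h1 | h1
        · exact h1
        · exact absurd hq.2 (fun h => not_both n m p.1 hp.1 (h1 ▸ h))
      have h4 : p.2 = q.2 := by
        rcases h2 with h2 | h2
        · exact absurd hp.2 (fun h => not_both n m q.1 hq.1 (h2 ▸ h))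
        · exact h2
      exact Prod.ext h3 h4
  have bX : m * (n - m) * (n - 2) ^ k ≤ ∑ P ∈ X, cdg (bip n m) P ^ k := by
    calc m * (n - m) * (n - 2) ^ k ≤ X.card * (n - 2) ^ k := Nat.mul_le_mul_right _ nX
      _ = ∑ _P ∈ X, (n - 2) ^ k := by rw [sum_const, smul_eq_mul]
      _ ≤ _ := by
        refine sum_le_sum fun P hP => ?_
        obtain ⟨h1, h2⟩ := mem_sdiff.mp hP
        obtain ⟨h3, h4⟩ := mem_sdiff.mp h1
        have h5 := (mem_powersetCard.mp h3).2
        exact Nat.pow_le_pow_left (cross_cdg n m P h5 (fun h => h4 (mem_powersetCard.mpr ⟨h, h5⟩))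
          (fun h => h2 (mem_powersetCard.mpr ⟨h, h5⟩))) k
  have bA : m.choose 2 * (n - m) ^ k ≤ ∑ P ∈ UA, cdg (bip n m) P ^ k := by
    rw [← nA, ← smul_eq_mul, ← sum_const]
    refine sum_le_sum fun P hP => ?_
    obtain ⟨h3, h4⟩ := mem_powersetCard.mp hP
    have := inA_cdg n m P h4 h3
    rw [card_PB' hm] at this
    exact Nat.pow_le_pow_left this k
  have bB : (n - m).choose 2 * m ^ k ≤ ∑ P ∈ UB, cdg (bip n m) P ^ k := by
    rw [← nB, ← smul_eq_mul, ← sum_const]
    refine sum_le_sum fun P hP => ?_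
    obtain ⟨h3, h4⟩ := mem_powersetCard.mp hP
    have := inB_cdg n m P h4 h3
    rw [card_PA' hm] at this
    exact Nat.pow_le_pow_left this k
  rw [e1]
  linarith

theorem bip_edges {n m : ℕ} (hm : m ≤ n) :
    (bip n m).card + m.choose 3 + (n - m).choose 3 = n.choose 3 := by
  have hU : ((univ : Finset (Fin n)).powersetCard 3).card = n.choose 3 := by
    rw [card_powersetCard, card_univ, Fintype.card_fin]
  have hA : ((PA n m).powersetCard 3).card = m.choose 3 := by rw [card_powersetCard, card_PA' hm]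
  have hB : ((PB n m).powersetCard 3).card = (n - m).choose 3 := by
    rw [card_powersetCard, card_PB' hm]
  have dAB : Disjoint ((PA n m).powersetCard 3) ((PB n m).powersetCard 3) := by
    rw [disjoint_left]
    intro P h1 h2
    have h1' := mem_powersetCard.mp h1
    have h2' := mem_powersetCard.mp h2
    obtain ⟨x, hx⟩ : P.Nonempty := by rw [← card_pos, h1'.2]; norm_num
    exact not_both _ _ x (h1'.1 hx) (h2'.1 hx)
  have dH : Disjoint (bip n m) ((PA n m).powersetCard 3 ∪ (PB n m).powersetCard 3) := by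
    rw [disjoint_left]
    intro P h1 h2
    have h1' := (mem_filter.mp h1).2
    rcases mem_union.mp h2 with h | h
    · exact h1'.1 (mem_powersetCard.mp h).1
    · exact h1'.2 (mem_powersetCard.mp h).1
  have e : (univ : Finset (Fin n)).powersetCard 3 =
      bip n m ∪ ((PA n m).powersetCard 3 ∪ (PB n m).powersetCard 3) := by
    ext P
    unfold bip
    simp only [mem_union, mem_filter, mem_powersetCard, subset_univ, true_and]
    tauto
  rw [← hU, e, card_union_of_disjoint dH, card_union_of_disjoint dAB, hA, hB, add_assoc]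

/-- the parts of the construction -/
noncomputable def part (a : ℝ) (n : ℕ) : ℕ := ⌊a * (n : ℝ)⌋₊

theorem part_le {a : ℝ} (h1 : a ≤ 1) (n : ℕ) : part a n ≤ n := by
  unfold part
  refine Nat.floor_le_of_le ?_
  have : (0 : ℝ) ≤ (n : ℝ) := by positivity
  nlinarith

theorem part_lim {a : ℝ} (h0 : 0 ≤ a) :
    Tendsto (fun n : ℕ => (part a n : ℝ) / (n : ℝ)) atTop (𝓝 a) :=
  (tendsto_nat_floor_mul_div_atTop h0).comp tendsto_natCast_atTop_atTop

theorem one_div_lim : Tendsto (fun n : ℕ => 1 / (n : ℝ)) atTop (𝓝 0) :=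
  tendsto_one_div_atTop_nhds_zero_nat

theorem choose3 (x : ℕ) : (x.choose 3 : ℝ) = (x : ℝ) * ((x : ℝ) - 1) * ((x : ℝ) - 2) / 6 := by
  rw [Nat.cast_choose_eq_ascPochhammer_div]
  simp [ascPochhammer_succ_right, Nat.factorial]
  rcases x with _ | _ | _ | x
  · simp
  · simp
  · norm_num
  · have e1 : x + 1 + 1 + 1 - (3 - 1) = x + 1 := by omega
    rw [e1]
    push_cast
    ring

/-- the density of the construction -/
theorem dens_lim {a : ℝ} (h0 : 0 ≤ a) (h1 : a ≤ 1) :
    Tendsto (fun n : ℕ => 6 * ((bip n (part a n)).card : ℝ) / (n : ℝ) ^ 3) atTop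
      (𝓝 (3 * (a * (1 - a)))) := by
  have hμ := part_lim h0
  have hε := one_div_lim
  have t : Tendsto (fun n : ℕ => 1 * (1 - 1 / (n : ℝ)) * (1 - 2 * (1 / (n : ℝ)))
      - (part a n : ℝ) / n * ((part a n : ℝ) / n - 1 / n) * ((part a n : ℝ) / n - 2 * (1 / n))
      - (1 - (part a n : ℝ) / n) * ((1 - (part a n : ℝ) / n) - 1 / n)
        * ((1 - (part a n : ℝ) / n) - 2 * (1 / n))) atTop
      (𝓝 (1 * (1 - 0) * (1 - 2 * 0) - a * (a - 0) * (a - 2 * 0)
        - (1 - a) * ((1 - a) - 0) * ((1 - a) - 2 * 0))) := by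
    refine Tendsto.sub (Tendsto.sub ?_ ?_) ?_
    · exact (tendsto_const_nhds.mul (tendsto_const_nhds.sub hε)).mul
        (tendsto_const_nhds.sub (hε.const_mul 2))
    · exact (hμ.mul (hμ.sub hε)).mul (hμ.sub (hε.const_mul 2))
    · exact ((tendsto_const_nhds.sub hμ).mul ((tendsto_const_nhds.sub hμ).sub hε)).mul
        ((tendsto_const_nhds.sub hμ).sub (hε.const_mul 2))
  have e : 1 * (1 - 0) * (1 - 2 * 0) - a * (a - 0) * (a - 2 * 0)
        - (1 - a) * ((1 - a) - 0) * ((1 - a) - 2 * 0) = 3 * (a * (1 - a)) := by ring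
  rw [e] at t
  refine t.congr' ?_
  filter_upwards [eventually_ge_atTop 1] with n hn
  have hn' : (0 : ℝ) < (n : ℝ) := by exact_mod_cast hn
  have hm := part_le h1 n
  have h := bip_edges hm
  have h2 : ((bip n (part a n)).card : ℝ) + ((part a n).choose 3 : ℝ) + ((n - part a n).choose 3 : ℝ)
      = (n.choose 3 : ℝ) := by exact_mod_cast h
  rw [choose3, choose3, choose3, Nat.cast_sub hm] at h2
  set m : ℝ := (part a n : ℝ)
  have h3 : ((bip n (part a n)).card : ℝ) = (n : ℝ) * ((n : ℝ) - 1) * ((n : ℝ) - 2) / 6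
    - m * (m - 1) * (m - 2) / 6 - ((n : ℝ) - m) * ((n : ℝ) - m - 1) * ((n : ℝ) - m - 2) / 6 := by
    linarith
  rw [h3]
  field_simp

/-- a lower bound for the moments of the construction -/
theorem mom_lower {a : ℝ} (h0 : 0 ≤ a) (h1 : a ≤ 1) (k : ℕ) :
    ∃ f : ℕ → ℝ, Tendsto f atTop (𝓝 (a ^ 2 * (1 - a) ^ k + (1 - a) ^ 2 * a ^ k + 2 * (a * (1 - a)))) ∧
      ∀ᶠ n : ℕ in atTop, f n ≤
        2 * (∑ P ∈ (univ : Finset (Fin n)).powersetCard 2, (cdg (bip n (part a n)) P : ℝ) ^ k)
          / (n : ℝ) ^ (k + 2) := by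
  have hμ := part_lim h0
  have hε := one_div_lim
  refine ⟨fun n : ℕ => (part a n : ℝ) / n * ((part a n : ℝ) / n - 1 / n) * (1 - (part a n : ℝ) / n) ^ k
    + (1 - (part a n : ℝ) / n) * ((1 - (part a n : ℝ) / n) - 1 / n) * ((part a n : ℝ) / n) ^ k
    + 2 * ((part a n : ℝ) / n * (1 - (part a n : ℝ) / n)) * (1 - 2 * (1 / (n : ℝ))) ^ k, ?_, ?_⟩
  · have t : Tendsto (fun n : ℕ => (part a n : ℝ) / n * ((part a n : ℝ) / n - 1 / n) * (1 - (part a n : ℝ) / n) ^ k
      + (1 - (part a n : ℝ) / n) * ((1 - (part a n : ℝ) / n) - 1 / n) * ((part a n : ℝ) / n) ^ k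
      + 2 * ((part a n : ℝ) / n * (1 - (part a n : ℝ) / n)) * (1 - 2 * (1 / (n : ℝ))) ^ k) atTop
      (𝓝 (a * (a - 0) * (1 - a) ^ k + (1 - a) * ((1 - a) - 0) * a ^ k
        + 2 * (a * (1 - a)) * (1 - 2 * 0) ^ k)) := by
      refine Tendsto.add (Tendsto.add ?_ ?_) ?_
      · exact (hμ.mul (hμ.sub hε)).mul ((tendsto_const_nhds.sub hμ).pow k)
      · exact ((tendsto_const_nhds.sub hμ).mul ((tendsto_const_nhds.sub hμ).sub hε)).mul (hμ.pow k)
      · exact ((hμ.mul (tendsto_const_nhds.sub hμ)).const_mul 2).mul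
          ((tendsto_const_nhds.sub (hε.const_mul 2)).pow k)
    convert t using 2
    ring
  · filter_upwards [eventually_ge_atTop 2] with n hn
    have hn' : (0 : ℝ) < (n : ℝ) := by
      have : 0 < n := by omega
      exact_mod_cast this
    have hm := part_le h1 n
    have h := bip_lower hm k
    have h2 : ((part a n).choose 2 : ℝ) * ((n - part a n : ℕ) : ℝ) ^ k
        + ((n - part a n).choose 2 : ℝ) * (part a n : ℝ) ^ k
        + (part a n : ℝ) * ((n - part a n : ℕ) : ℝ) * ((n - 2 : ℕ) : ℝ) ^ k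
        ≤ ∑ P ∈ (univ : Finset (Fin n)).powersetCard 2, (cdg (bip n (part a n)) P : ℝ) ^ k := by
      exact_mod_cast h
    rw [Nat.cast_choose_two, Nat.cast_choose_two, Nat.cast_sub hm, Nat.cast_sub hn] at h2
    rw [le_div_iff₀ (by positivity)]
    refine le_trans (le_of_eq ?_) (mul_le_mul_of_nonneg_left h2 (by norm_num : (0 : ℝ) ≤ 2))
    set m : ℝ := (part a n : ℝ)
    have g1 : (1 - m / n) ^ k * (n : ℝ) ^ k = ((n : ℝ) - m) ^ k := by
      rw [← mul_pow]; congr 1; field_simp
    have g2 : (m / n) ^ k * (n : ℝ) ^ k = m ^ k := by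
      rw [← mul_pow]; congr 1; field_simp
    have g3 : (1 - 2 * (1 / (n : ℝ))) ^ k * (n : ℝ) ^ k = ((n : ℝ) - 2) ^ k := by
      rw [← mul_pow]; congr 1; field_simp
    push_cast
    rw [← g1, ← g2, ← g3, pow_add]
    field_simp

end Pool.Agent.U348.K5
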