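import Pool.Agent.U348.K5.Bip

/-! Real powers of the codegrees of the complete bipartite 3-graphs. -/

set_option autoImplicit false
open Finset Filter Topology
open scoped Classical

namespace Pool.Agent.U348.K5
open Pool.Agent.H122R2.N6 Pool.Agent.H37R3.K5 Pool.Agent.H122R2.K5

theorem bip_lower_fun {n m : ℕ} (hm : m ≤ n) (g : ℕ → ℝ) (hg : Monotone g) (hg0 : 0 ≤ g 0) :
    (m.choose 2 : ℝ) * g (n - m) + ((n - m).choose 2 : ℝ) * g m + (m : ℝ) * ((n - m : ℕ) : ℝ) * g (n - 2)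
      ≤ ∑ P ∈ (univ : Finset (Fin n)).powersetCard 2, g (cdg (bip n m) P) := by
  have hgn : ∀ k, 0 ≤ g k := fun k => hg0.trans (hg (Nat.zero_le k))
  set A := PA n m with hA
  set B := PB n m with hB
  set U := (univ : Finset (Fin n)).powersetCard 2 with hU
  have cA : A.card = m := card_PA' hm
  have cB : B.card = n - m := card_PB' hm
  set UA := A.powersetCard 2 with hUA
  set UB := B.powersetCard 2 with hUB
  have sA : UA ⊆ U := powersetCard_mono (subset_univ _)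
  have sB : UB ⊆ U := powersetCard_mono (subset_univ _)
  have dAB : Disjoint UA UB := by
    rw [disjoint_left]
    intro P h1 h2
    have h1' := mem_powersetCard.mp h1
    have h2' := mem_powersetCard.mp h2
    obtain ⟨x, hx⟩ : P.Nonempty := by rw [← card_pos, h1'.2]; norm_num
    exact not_both _ _ x (h1'.1 hx) (h2'.1 hx)
  set X := (U \ UA) \ UB with hX
  have sX : UB ⊆ U \ UA := fun P hP => mem_sdiff.mpr ⟨sB hP, fun h => disjoint_left.mp dAB h hP⟩
  have e1 : ∑ P ∈ U, g (cdg (bip n m) P) =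
      ∑ P ∈ X, g (cdg (bip n m) P) + ∑ P ∈ UB, g (cdg (bip n m) P)
        + ∑ P ∈ UA, g (cdg (bip n m) P) := by
    rw [sum_sdiff sX, sum_sdiff sA]
  have nA : UA.card = m.choose 2 := by rw [hUA, card_powersetCard, cA]
  have nB : UB.card = (n - m).choose 2 := by rw [hUB, card_powersetCard, cB]
  -- mixed pairs
  have nX : m * (n - m) ≤ X.card := by
    have e0 : m * (n - m) = (A ×ˢ B).card := by rw [card_product, cA, cB]
    rw [e0]
    refine card_le_card_of_injOn (fun p : Fin n × Fin n => ({p.1, p.2} : Finset (Fin n))) ?_ ?_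
    · intro p hp
      rw [mem_coe, mem_product] at hp
      have hne : p.1 ≠ p.2 := fun h => not_both n m p.1 hp.1 (h ▸ hp.2)
      refine Finset.mem_coe.mpr (Finset.mem_sdiff.mpr ⟨Finset.mem_sdiff.mpr
        ⟨mem_powersetCard.mpr ⟨subset_univ _, card_pair hne⟩, fun h => ?_⟩, fun h => ?_⟩)
      · exact not_both n m p.2 ((mem_powersetCard.mp h).1 (by simp)) hp.2
      · exact not_both n m p.1 hp.1 ((mem_powersetCard.mp h).1 (by simp))
    · intro p hp q hq hpq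
      rw [mem_coe, mem_product] at hp hq
      have h1 : p.1 ∈ ({q.1, q.2} : Finset (Fin n)) := by
        rw [← show ({p.1, p.2} : Finset (Fin n)) = {q.1, q.2} from hpq]; simp
      have h2 : p.2 ∈ ({q.1, q.2} : Finset (Fin n)) := by
        rw [← show ({p.1, p.2} : Finset (Fin n)) = {q.1, q.2} from hpq]; simp
      simp only [mem_insert, mem_singleton] at h1 h2
      have h3 : p.1 = q.1 := by
        rcases h1 with h1 | h1
        · exact h1
        · exact absurd hq.2 (fun h => not_both n m p.1 hp.1 (h1 ▸ h))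
      have h4 : p.2 = q.2 := by
        rcases h2 with h2 | h2
        · exact absurd hp.2 (fun h => not_both n m q.1 hq.1 (h2 ▸ h))
        · exact h2
      exact Prod.ext h3 h4
  have nX' : (m : ℝ) * ((n - m : ℕ) : ℝ) ≤ (X.card : ℝ) := by exact_mod_cast nX
  have bX : (m : ℝ) * ((n - m : ℕ) : ℝ) * g (n - 2) ≤ ∑ P ∈ X, g (cdg (bip n m) P) := by
    calc (m : ℝ) * ((n - m : ℕ) : ℝ) * g (n - 2) ≤ (X.card : ℝ) * g (n - 2) :=
          mul_le_mul_of_nonneg_right nX' (hgn _)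
      _ = ∑ _P ∈ X, g (n - 2) := by rw [sum_const, nsmul_eq_mul]
      _ ≤ _ := by
        refine sum_le_sum fun P hP => ?_
        obtain ⟨h1, h2⟩ := mem_sdiff.mp hP
        obtain ⟨h3, h4⟩ := mem_sdiff.mp h1
        have h5 := (mem_powersetCard.mp h3).2
        exact hg (cross_cdg n m P h5 (fun h => h4 (mem_powersetCard.mpr ⟨h, h5⟩))
          (fun h => h2 (mem_powersetCard.mpr ⟨h, h5⟩)))
  have bA : (m.choose 2 : ℝ) * g (n - m) ≤ ∑ P ∈ UA, g (cdg (bip n m) P) := by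
    rw [← nA, ← nsmul_eq_mul, ← sum_const]
    refine sum_le_sum fun P hP => ?_
    obtain ⟨h3, h4⟩ := mem_powersetCard.mp hP
    have := inA_cdg n m P h4 h3
    rw [card_PB' hm] at this
    exact hg this
  have bB : ((n - m).choose 2 : ℝ) * g m ≤ ∑ P ∈ UB, g (cdg (bip n m) P) := by
    rw [← nB, ← nsmul_eq_mul, ← sum_const]
    refine sum_le_sum fun P hP => ?_
    obtain ⟨h3, h4⟩ := mem_powersetCard.mp hP
    have := inB_cdg n m P h4 h3
    rw [card_PA' hm] at this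
    exact hg this
  rw [e1]
  linarith

theorem bip_powers {n : ℕ} (hn : 2 ≤ n) {m : ℕ} (hm : m ≤ n) (p : ℝ) (hp : 0 ≤ p) :
    (m : ℝ) * ((m : ℝ) - 1) / 2 * ((n : ℝ) - m) ^ p
      + ((n : ℝ) - m) * ((n : ℝ) - m - 1) / 2 * (m : ℝ) ^ p + (m : ℝ) * ((n : ℝ) - m) * ((n : ℝ) - 2) ^ p
      ≤ ∑ P ∈ (univ : Finset (Fin n)).powersetCard 2, (cdg (bip n m) P : ℝ) ^ p := by
  have h := bip_lower_fun hm (fun k : ℕ => (k : ℝ) ^ p)
    (fun a b hab => Real.rpow_le_rpow (Nat.cast_nonneg a) (Nat.cast_le.mpr hab) hp)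
    (Real.rpow_nonneg (Nat.cast_nonneg 0) p)
  simp only [Nat.cast_choose_two, Nat.cast_sub hm, Nat.cast_sub hn] at h
  push_cast at h
  exact h

/-- the constant is attained in the limit -/
theorem powers_lim (p : ℝ) (hp : 0 ≤ p) :
    ∃ f : ℕ → ℝ, Tendsto f atTop (𝓝 ((1 + (1 / 2 : ℝ) ^ p) / 4)) ∧
      ∀ᶠ n : ℕ in atTop, f n ≤
        (∑ P ∈ (univ : Finset (Fin n)).powersetCard 2, (cdg (bip n (part (1 / 2) n)) P : ℝ) ^ p)
          / (n : ℝ) ^ (p + 2) := by
  have hμ := part_lim (a := 1 / 2) (by norm_num)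
  have hε := one_div_lim
  have hμ1 : Tendsto (fun n : ℕ => 1 - (part (1 / 2) n : ℝ) / n) atTop (𝓝 (1 / 2 : ℝ)) := by
    have := (tendsto_const_nhds (x := (1 : ℝ))).sub hμ
    norm_num at this
    simpa using this
  refine ⟨fun n : ℕ => (part (1 / 2) n : ℝ) / n * ((part (1 / 2) n : ℝ) / n - 1 / n) / 2
      * (1 - (part (1 / 2) n : ℝ) / n) ^ p
    + (1 - (part (1 / 2) n : ℝ) / n) * ((1 - (part (1 / 2) n : ℝ) / n) - 1 / n) / 2
      * ((part (1 / 2) n : ℝ) / n) ^ p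
    + ((part (1 / 2) n : ℝ) / n * (1 - (part (1 / 2) n : ℝ) / n)) * (1 - 2 * (1 / (n : ℝ))) ^ p, ?_, ?_⟩
  · have t1 : Tendsto (fun n : ℕ => (1 - (part (1 / 2) n : ℝ) / n) ^ p) atTop (𝓝 ((1 / 2 : ℝ) ^ p)) :=
      hμ1.rpow_const (Or.inl (by norm_num))
    have t2 : Tendsto (fun n : ℕ => ((part (1 / 2) n : ℝ) / n) ^ p) atTop (𝓝 ((1 / 2 : ℝ) ^ p)) :=
      hμ.rpow_const (Or.inl (by norm_num))
    have t3 : Tendsto (fun n : ℕ => (1 - 2 * (1 / (n : ℝ))) ^ p) atTop (𝓝 ((1 - 2 * 0 : ℝ) ^ p)) :=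
      (tendsto_const_nhds.sub (hε.const_mul 2)).rpow_const (Or.inl (by norm_num))
    have t : Tendsto (fun n : ℕ => (part (1 / 2) n : ℝ) / n * ((part (1 / 2) n : ℝ) / n - 1 / n) / 2
      * (1 - (part (1 / 2) n : ℝ) / n) ^ p
      + (1 - (part (1 / 2) n : ℝ) / n) * ((1 - (part (1 / 2) n : ℝ) / n) - 1 / n) / 2
        * ((part (1 / 2) n : ℝ) / n) ^ p
      + ((part (1 / 2) n : ℝ) / n * (1 - (part (1 / 2) n : ℝ) / n)) * (1 - 2 * (1 / (n : ℝ))) ^ p) atTop
      (𝓝 ((1 / 2 : ℝ) * ((1 / 2 : ℝ) - 0) / 2 * (1 / 2 : ℝ) ^ p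
        + (1 / 2 : ℝ) * ((1 / 2 : ℝ) - 0) / 2 * (1 / 2 : ℝ) ^ p
        + ((1 / 2 : ℝ) * (1 / 2 : ℝ)) * (1 - 2 * 0 : ℝ) ^ p)) := by
      refine Tendsto.add (Tendsto.add ?_ ?_) ?_
      · exact ((hμ.mul (hμ.sub hε)).div_const 2).mul t1
      · exact ((hμ1.mul (hμ1.sub hε)).div_const 2).mul t2
      · exact (hμ.mul hμ1).mul t3
    convert t using 2
    have e : (1 - 2 * 0 : ℝ) ^ p = 1 := by
      rw [mul_zero, sub_zero, Real.one_rpow]
    rw [e]
    ring
  · filter_upwards [eventually_ge_atTop 2] with n hn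
    have hn' : (0 : ℝ) < (n : ℝ) := by
      have : 0 < n := by omega
      exact_mod_cast this
    have hm := part_le (a := 1 / 2) (by norm_num) n
    have h2 := bip_powers hn hm p hp
    rw [le_div_iff₀ (Real.rpow_pos_of_pos hn' _)]
    refine le_trans (le_of_eq ?_) h2
    have hmr : (part (1 / 2) n : ℝ) ≤ (n : ℝ) := by exact_mod_cast hm
    have hm0 : (0 : ℝ) ≤ (part (1 / 2) n : ℝ) := Nat.cast_nonneg _
    have hn2 : (2 : ℝ) ≤ (n : ℝ) := by exact_mod_cast hn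
    set m : ℝ := (part (1 / 2) n : ℝ)
    have g1 : (1 - m / n) ^ p * (n : ℝ) ^ p = ((n : ℝ) - m) ^ p := by
      rw [← Real.mul_rpow (by rw [sub_nonneg, div_le_one hn']; exact hmr) hn'.le]
      congr 1; field_simp
    have g2 : (m / n) ^ p * (n : ℝ) ^ p = m ^ p := by
      rw [← Real.mul_rpow (by positivity) hn'.le]
      congr 1; field_simp
    have g3 : (1 - 2 * (1 / (n : ℝ))) ^ p * (n : ℝ) ^ p = ((n : ℝ) - 2) ^ p := by
      rw [← Real.mul_rpow (by rw [sub_nonneg, mul_one_div, div_le_one hn']; exact hn2) hn'.le]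
      congr 1; field_simp
    rw [← g1, ← g2, ← g3, Real.rpow_add hn', Real.rpow_two]
    field_simp

end Pool.Agent.U348.K5
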