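import Pool.Agent.U348.K5.CAPart00
import Pool.Agent.U348.K5.CAPart01
import Pool.Agent.U348.K5.CAPart10
import Pool.Agent.U348.K5.CAPart11
import Pool.Agent.U348.K5.CAPsd

set_option autoImplicit false
set_option maxRecDepth 100000
set_option maxHeartbeats 4000000
open Finset

namespace Pool.Agent.U348.K5.CA
open Pool.Agent.H122R2.N6 Pool.Agent.H37R3.Pen Pool.Agent.H37R3.K5 Pool.Agent.U348.K5

theorem hc (b012 b013 b023 b123 b014 b024 b124 b034 b134 b234 : ℕ) (hb012 : Bt b012) (hb013 : Bt b013) (hb023 : Bt b023) (hb123 : Bt b123) (hb014 : Bt b014) (hb024 : Bt b024) (hb124 : Bt b124) (hb034 : Bt b034) (hb134 : Bt b134) (hb234 : Bt b234) (ht : tg5 b012 b013 b023 b123 b014 b024 b124 b034 b134 b234 = 4) :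
    chk5 q4 q2 CST 0 [] b012 b013 b023 b123 b014 b024 b124 b034 b134 b234 = true := by
  have h : part b012 b013 = true := by
    rcases hb012 with rfl | rfl <;> rcases hb013 with rfl | rfl
    exacts [part00, part01, part10, part11]
  have h2 := (B2_true (B2_true (B2_true (B2_true (B2_true (B2_true (B2_true (B2_true h hb023) hb123) hb014) hb024) hb124) hb034) hb134) hb234)
  refine or_false_left h2 ?_
  rw [ht]
  rfl

theorem rng : (nall 16 fun c => and (Nat.blt (rho c) 5) (nall 64 fun i => Nat.blt (pc c i) 64)) = true := by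
  decide +kernel

theorem rho_lt {c : ℕ} (h : c < 16) : rho c < 5 := by
  have := nall_true rng c h
  rw [Bool.and_eq_true] at this
  exact Nat.le_of_ble_eq_true this.1

theorem pc_lt {c i : ℕ} (h : c < 16) (hi : i < 64) : pc c i < 64 := by
  have := nall_true rng c h
  rw [Bool.and_eq_true] at this
  exact Nat.le_of_ble_eq_true (nall_true this.2 i hi)

theorem g4_all {r i j : ℕ} (hr : r < 5) (hi : i < 64) (hj : j < 64) : g4 r i j = true := by
  have h : chk4 r = true := by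
    interval_cases r
    exacts [cp0, cp1, cp2, cp3, cp4]
  exact nall_true (nall_true h i hi) j hj

theorem expand (s : Finset ℕ) (w u v : ℕ → ℕ) (B : ℤ) :
    ∑ k ∈ s, (w k : ℤ) * ((u k : ℤ) - B) * ((v k : ℤ) - B) =
      ∑ k ∈ s, (w k : ℤ) * ((u k : ℤ) * (v k : ℤ)) + B ^ 2 * ∑ k ∈ s, (w k : ℤ)
        - B * (∑ k ∈ s, (w k : ℤ) * (u k : ℤ) + ∑ k ∈ s, (w k : ℤ) * (v k : ℤ)) := by
  rw [mul_add, mul_sum, mul_sum, mul_sum, ← sum_add_distrib, ← sum_add_distrib, ← sum_sub_distrib]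
  exact sum_congr rfl fun k _ => by ring

theorem hq4 (c i j : ℕ) (hc : c < 16) (hi : i < 64) (hj : j < 64) : (q4 c i j : ℤ) =
    ∑ k ∈ range 84, (w4 (rho c) k : ℤ) * ((l4 (rho c) (pc c i) k : ℤ) - 32) *
      ((l4 (rho c) (pc c j) k : ℤ) - 32) + (so (rho c) : ℤ) := by
  have h := Nat.eq_of_beq_eq_true (g4_all (rho_lt hc) (pc_lt hc hi) (pc_lt hc hj))
  unfold ll sw sl at h
  rw [nsum_eq, nsum_eq, nsum_eq, nsum_eq] at h
  have h2 := congrArg (fun n : ℕ => (n : ℤ)) h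
  simp only [Nat.add_eq, Nat.mul_eq] at h2
  push_cast at h2
  rw [expand (range 84) (fun k => w4 (rho c) k) (fun k => l4 (rho c) (pc c i) k)
    (fun k => l4 (rho c) (pc c j) k) 32]
  have h3 : (q4 c i j : ℤ) = (tq (rho c) (pc c i) (pc c j) : ℤ) := rfl
  rw [h3]
  linarith

theorem hq2 (i j : ℕ) (hi : i < 16) (hj : j < 16) : (q2 i j : ℤ) =
    ∑ k ∈ range 7, (w2 k : ℤ) * ((l2 i k : ℤ) - 32) * ((l2 j k : ℤ) - 32)
      + ((ct (kk i j) : ℤ) + (-116504) * (ww i j : ℤ)) := by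
  have h := Nat.eq_of_beq_eq_true (nall_true (nall_true cpb i hi) j hj)
  unfold ll2 sw2 sl2 at h
  rw [nsum_eq, nsum_eq, nsum_eq, nsum_eq] at h
  have h2 := congrArg (fun n : ℕ => (n : ℤ)) h
  simp only [Nat.add_eq, Nat.mul_eq] at h2
  push_cast at h2
  rw [expand (range 7) (fun k => w2 k) (fun k => l2 i k) (fun k => l2 j k) 32]
  linarith

theorem so_0 : so 0 = 4194304 := by decide +kernel
theorem so_1 : so 1 = 4325371 := by decide +kernel
theorem so_2 : so 2 = 4325371 := by decide +kernel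
theorem so_3 : so 3 = 4194304 := by decide +kernel
theorem so_4 : so 4 = 4194304 := by decide +kernel
theorem ct_0 : ct 0 = 4194304 := by decide +kernel
theorem ct_1 : ct 1 = 4019548 := by decide +kernel
theorem ct_2 : ct 2 = 4019548 := by decide +kernel
theorem ct_3 : ct 3 = 4194304 := by decide +kernel
theorem ct_4 : ct 4 = 4543816 := by decide +kernel

theorem raw {V : Type} [Fintype V] {E : V → V → V → ℕ} (hE : Sy E) (hK : NoK5 E) :
    15 * ((Fintype.card V : ℤ) ^ 2 * Sv E (fun c => (so (rho c) : ℤ)))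
      + 45 * (4194304 * (Fintype.card V : ℤ) ^ 6 + 4 * (-174756) * (Fintype.card V : ℤ) ^ 3 * Dk E 1
      + 6 * (174756) * (Fintype.card V : ℤ) ^ 2 * Dk E 2
      + 4 * (0) * (Fintype.card V : ℤ) * Dk E 3 + (0) * Dk E 4)
      + 90 * (-116504) * Dk E 1 ^ 2 ≤ 251658240 * (Fintype.card V : ℤ) ^ 6 := by
  have hb := boundU E hE 84 7 CST q4 (fun c k => w4 (rho c) k) (fun c i k => l4 (rho c) (pc c i) k)
    q2 w2 l2 32 (fun c => (so (rho c) : ℤ)) (fun k => (ct k : ℤ)) (-116504) hq4 hq2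
    (leafU E hE hK cs4 cs2 hc)
  rw [T3_eq, T2_eq E hE (fun k => (ct k : ℤ)) (4194304) (-174756) (174756) (0) (0)
    (by show ((ct 0 : ℕ) : ℤ) = _; rw [ct_0]; norm_num)
    (by show ((ct 1 : ℕ) : ℤ) = _; rw [ct_1]; norm_num)
    (by show ((ct 2 : ℕ) : ℤ) = _; rw [ct_2]; norm_num)
    (by show ((ct 3 : ℕ) : ℤ) = _; rw [ct_3]; norm_num)
    (by show ((ct 4 : ℕ) : ℤ) = _; rw [ct_4]; norm_num)] at hb
  have hC : (CST : ℤ) = 251658240 := rfl
  rw [hC] at hb
  exact hb

end Pool.Agent.U348.K5.CA
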