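import Pool.Agent.U348.K5.CCTabL
import Pool.Agent.H122R2.N6.SymDefs

set_option autoImplicit false
set_option maxRecDepth 100000

namespace Pool.Agent.U348.K5.CC

open Pool.Agent.H122R2.N6

theorem cs4 : sym4 q4 = true := by decide +kernel
theorem cs2 : sym2 q2 = true := by decide +kernel
theorem cp0 : chk4 0 = true := by decide +kernel
theorem cp1 : chk4 1 = true := by decide +kernel
theorem cp2 : chk4 2 = true := by decide +kernel
theorem cp3 : chk4 3 = true := by decide +kernel
theorem cp4 : chk4 4 = true := by decide +kernel
theorem cpb : chk2 = true := by decide +kernel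

end Pool.Agent.U348.K5.CC
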