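import Pool.Agent.U348.K5.Base
import Pool.Agent.Y580.FL.Quad

/-! Codegrees and edges: exact double counting. -/

set_option autoImplicit false
open Finset
open scoped Classical

namespace Pool.Agent.U348.K5
open Pool.Agent.H122R2.N6 Pool.Agent.Y580.FL

section
variable {V : Type} [Fintype V]

theorem tri_sum_ne {H : Finset (Finset V)} (hH : ∀ e ∈ H, e.card = 3) {a b : V} (hab : a ≠ b) :
    ∑ c, tri H a b c = deg2 H {a, b} := by
  refine le_antisymm ?_ (deg2_le hH hab)
  have e : ∑ c, tri H a b c = (univ.filter fun c => ({a, b, c} : Finset V) ∈ H).card := by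
    rw [card_filter]
    rfl
  rw [e]
  unfold deg2
  refine card_le_card_of_injOn (fun c => ({a, b, c} : Finset V)) ?_ ?_
  · intro c hc
    have hc' := (mem_filter.mp (mem_coe.mp hc)).2
    rw [mem_coe, mem_filter]
    refine ⟨hc', ?_⟩
    intro x hx
    simp only [mem_insert, mem_singleton] at hx ⊢
    tauto
  · intro c hc d hd hcd
    have hc' := (mem_filter.mp (mem_coe.mp hc)).2
    obtain ⟨-, h1, h2⟩ := distinct_of_mem hH hc'
    have h3 : c ∈ ({a, b, d} : Finset V) := by
      have h4 : c ∈ ({a, b, c} : Finset V) := by simp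
      exact (show ({a, b, c} : Finset V) = {a, b, d} from hcd) ▸ h4
    simp only [mem_insert, mem_singleton] at h3
    rcases h3 with h3 | h3 | h3
    · exact absurd h3.symm h1
    · exact absurd h3.symm h2
    · exact h3

theorem tri_sum_eq {H : Finset (Finset V)} (hH : ∀ e ∈ H, e.card = 3) (a : V) :
    ∑ c, tri H a a c = 0 := by
  refine sum_eq_zero fun c _ => tri_zero hH (Or.inl rfl)

/-- sums over ordered pairs of different vertices -/
theorem pair_sum (g : Finset V → ℤ) :
    ∑ p ∈ (univ : Finset V).offDiag, g {p.1, p.2} =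
      2 * ∑ P ∈ (univ : Finset V).powersetCard 2, g P := by
  rw [← sum_fiberwise_of_maps_to (s := (univ : Finset V).offDiag)
    (t := (univ : Finset V).powersetCard 2) (g := fun p => ({p.1, p.2} : Finset V))
    (f := fun p => g {p.1, p.2}) ?_, mul_sum]
  · refine sum_congr rfl fun P hP => ?_
    obtain ⟨x, y, hxy, rfl⟩ := card_eq_two.mp (mem_powersetCard.mp hP).2
    have h2 : ({(x, y), (y, x)} : Finset (V × V)).card = 2 := by
      rw [card_pair]
      intro h
      exact hxy (Prod.ext_iff.mp h).1
    have h3 : (univ : Finset V).offDiag.filter (fun p => ({p.1, p.2} : Finset V) = {x, y}) =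
        ({(x, y), (y, x)} : Finset (V × V)) := by
      ext p
      simp only [mem_filter, mem_offDiag, mem_insert, mem_singleton, mem_univ, true_and]
      constructor
      · rintro ⟨hne, he⟩
        have h4 : p.1 ∈ ({x, y} : Finset V) := by rw [← he]; simp
        have h5 : p.2 ∈ ({x, y} : Finset V) := by rw [← he]; simp
        simp only [mem_insert, mem_singleton] at h4 h5
        rcases h4 with h4 | h4 <;> rcases h5 with h5 | h5
        · exact absurd (h4.trans h5.symm) hne
        · left; exact Prod.ext h4 h5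
        · right; exact Prod.ext h4 h5
        · exact absurd (h4.trans h5.symm) hne
      · rintro (rfl | rfl)
        · exact ⟨hxy, rfl⟩
        · exact ⟨hxy.symm, pair_comm _ _⟩
    calc ∑ p ∈ (univ : Finset V).offDiag.filter (fun p => ({p.1, p.2} : Finset V) = {x, y}),
          g {p.1, p.2} =
        ∑ p ∈ (univ : Finset V).offDiag.filter (fun p => ({p.1, p.2} : Finset V) = {x, y}),
          g {x, y} := sum_congr rfl fun p hp => by rw [(mem_filter.mp hp).2]
      _ = 2 * g {x, y} := by
          rw [h3, sum_const, h2, nsmul_eq_mul]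
          norm_num
  · intro p hp
    rw [mem_powersetCard]
    exact ⟨subset_univ _, card_pair (mem_offDiag.mp hp).2.2⟩

theorem Dk_eq {H : Finset (Finset V)} (hH : ∀ e ∈ H, e.card = 3) (k : ℕ) (hk : k ≠ 0) :
    Dk (tri H) k = 2 * ∑ P ∈ (univ : Finset V).powersetCard 2, (deg2 H P : ℤ) ^ k := by
  rw [← pair_sum fun P => (deg2 H P : ℤ) ^ k]
  unfold Dk
  rw [← Fintype.sum_prod_type' (f := fun a b => (∑ c, (tri H a b c : ℤ)) ^ k)]
  symm
  calc ∑ p ∈ (univ : Finset V).offDiag, (deg2 H {p.1, p.2} : ℤ) ^ k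
      = ∑ p ∈ (univ : Finset V).offDiag, (∑ c, (tri H p.1 p.2 c : ℤ)) ^ k := by
        refine sum_congr rfl fun p hp => ?_
        have hne := (mem_offDiag.mp hp).2.2
        rw [← tri_sum_ne hH hne]
        push_cast
        rfl
    _ = ∑ p : V × V, (∑ c, (tri H p.1 p.2 c : ℤ)) ^ k := by
        refine sum_subset (subset_univ _) fun p _ hp => ?_
        have he : p.1 = p.2 := by
          by_contra hne
          exact hp (mem_offDiag.mpr ⟨mem_univ _, mem_univ _, hne⟩)
        have h0 := tri_sum_eq hH p.1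
        have h1 : ∑ c, (tri H p.1 p.2 c : ℤ) = 0 := by
          rw [← he]
          exact_mod_cast h0
        rw [h1, zero_pow hk]

/-- the codegrees add up to three times the number of edges -/
theorem sum_deg2 {H : Finset (Finset V)} (hH : ∀ e ∈ H, e.card = 3) :
    ∑ P ∈ (univ : Finset V).powersetCard 2, deg2 H P = 3 * H.card := by
  unfold deg2
  simp only [card_filter]
  rw [sum_comm]
  have h : ∀ e ∈ H, ∑ P ∈ (univ : Finset V).powersetCard 2, (if P ⊆ e then 1 else 0) = 3 := by
    intro e he
    rw [← card_filter]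
    have h2 : ((univ : Finset V).powersetCard 2).filter (fun P => P ⊆ e) = e.powersetCard 2 := by
      ext P
      simp only [mem_filter, mem_powersetCard, subset_univ, true_and]
      tauto
    rw [h2, card_powersetCard, hH e he]
    rfl
  rw [sum_congr rfl h, sum_const, smul_eq_mul, mul_comm]

theorem D1_eq {H : Finset (Finset V)} (hH : ∀ e ∈ H, e.card = 3) :
    Dk (tri H) 1 = 6 * (H.card : ℤ) := by
  rw [Dk_eq hH 1 one_ne_zero]
  simp only [pow_one]
  have h := sum_deg2 hH
  have h2 : ∑ P ∈ (univ : Finset V).powersetCard 2, (deg2 H P : ℤ) = 3 * (H.card : ℤ) := by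
    exact_mod_cast h
  rw [h2]
  ring

/-- the number of four-element vertex sets that span exactly one or exactly two edges -/
noncomputable def mixed (H : Finset (Finset V)) : ℕ := Nq H 1 + Nq H 2

/-- the penalty at the types -/
theorem sv_mixed {H : Finset (Finset V)} (hH : ∀ e ∈ H, e.card = 3) (s : ℕ → ℤ) (O P : ℤ)
    (hP : 0 ≤ P)
    (hs : ∀ x y z w : ℕ, Bt x → Bt y → Bt z → Bt w → s (cd4 x y z w) =
      O + P * (if x + y + z + w = 1 then 1 else 0) + P * (if x + y + z + w = 2 then 1 else 0)) :
    O * (Fintype.card V : ℤ) ^ 4 + 24 * P * (mixed H : ℤ) ≤ Sv (tri H) s := by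
  rw [sv_four (tri_sy H) s (fun k => O + P * (if k = 1 then 1 else 0) + P * (if k = 2 then 1 else 0)) hs]
  have h1 := quad_tuples hH 1
  have h2 := quad_tuples hH 2
  have h1' : (24 : ℤ) * (Nq H 1 : ℤ) ≤ ∑ a, ∑ b, ∑ c, ∑ d,
      (if tri H a b c + tri H a b d + tri H a c d + tri H b c d = 1 then (1 : ℤ) else 0) := by
    exact_mod_cast h1
  have h2' : (24 : ℤ) * (Nq H 2 : ℤ) ≤ ∑ a, ∑ b, ∑ c, ∑ d,
      (if tri H a b c + tri H a b d + tri H a c d + tri H b c d = 2 then (1 : ℤ) else 0) := by
    exact_mod_cast h2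
  simp only [sum_add_distrib, ← mul_sum, sum_const, card_univ, nsmul_eq_mul]
  have e : (mixed H : ℤ) = (Nq H 1 : ℤ) + (Nq H 2 : ℤ) := by
    unfold mixed
    push_cast
    rfl
  rw [e]
  have a1 := mul_le_mul_of_nonneg_left h1' hP
  have a2 := mul_le_mul_of_nonneg_left h2' hP
  have e4 : (Fintype.card V : ℤ) ^ 4 = (Fintype.card V : ℤ) * ((Fintype.card V : ℤ) *
    ((Fintype.card V : ℤ) * (Fintype.card V : ℤ))) := by ring
  rw [e4]
  nlinarith [a1, a2]

end
end Pool.Agent.U348.K5
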