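import Pool.Agent.U348.K5.CAFin
import Pool.Agent.U348.K5.CCFin
import Pool.Agent.U348.K5.CGFin
import Pool.Agent.U348.K5.Deg

/-! The three inequalities for the codegrees of a 3-graph without a complete 3-graph on five
vertices. -/

set_option autoImplicit false
set_option maxRecDepth 100000
open Finset
open scoped Classical

namespace Pool.Agent.U348.K5
open Pool.Agent.H122R2.N6 Pool.Agent.H37R3.K5

section
variable {V : Type} [Fintype V] {H : Finset (Finset V)}

theorem soA (x y z w : ℕ) (hx : Bt x) (hy : Bt y) (hz : Bt z) (hw : Bt w) :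
    ((CA.so (CA.rho (cd4 x y z w)) : ℕ) : ℤ) = 4194304 + 131067 * (if x + y + z + w = 1 then 1 else 0)
      + 131067 * (if x + y + z + w = 2 then 1 else 0) := by
  rcases hx with rfl | rfl <;> rcases hy with rfl | rfl <;> rcases hz with rfl | rfl <;>
    rcases hw with rfl | rfl <;> decide +kernel

theorem soC (x y z w : ℕ) (hx : Bt x) (hy : Bt y) (hz : Bt z) (hw : Bt w) :
    ((CC.so (CC.rho (cd4 x y z w)) : ℕ) : ℤ) = 4194304 + 131070 * (if x + y + z + w = 1 then 1 else 0)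
      + 131070 * (if x + y + z + w = 2 then 1 else 0) := by
  rcases hx with rfl | rfl <;> rcases hy with rfl | rfl <;> rcases hz with rfl | rfl <;>
    rcases hw with rfl | rfl <;> decide +kernel

theorem soG (x y z w : ℕ) (hx : Bt x) (hy : Bt y) (hz : Bt z) (hw : Bt w) :
    ((CG.so (CG.rho (cd4 x y z w)) : ℕ) : ℤ) = 4398046511104 + 0 * (if x + y + z + w = 1 then 1 else 0)
      + 0 * (if x + y + z + w = 2 then 1 else 0) := by
  rcases hx with rfl | rfl <;> rcases hy with rfl | rfl <;> rcases hz with rfl | rfl <;>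
    rcases hw with rfl | rfl <;> decide +kernel

theorem rawA (hH : ∀ e ∈ H, e.card = 3) (hF : K53Free H) :
    9 * ((Fintype.card V : ℤ) ^ 2 * ((mixed H : ℤ) + Dk (tri H) 2))
      ≤ 6 * (Fintype.card V : ℤ) ^ 3 * Dk (tri H) 1 + 2 * Dk (tri H) 1 ^ 2 := by
  have h := CA.raw (tri_sy H) (tri_noK5 hH hF)
  have h2 := sv_mixed hH (fun c => ((CA.so (CA.rho c) : ℕ) : ℤ)) 4194304 131067 (by norm_num) soA
  have hn : (0 : ℤ) ≤ (Fintype.card V : ℤ) ^ 2 := by positivity
  have h3 := mul_le_mul_of_nonneg_left h2 hn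
  set n := (Fintype.card V : ℤ)
  set N := (mixed H : ℤ)
  have e1 : n ^ 2 * (4194304 * n ^ 4 + 24 * 131067 * N) = 4194304 * n ^ 6 + 3145608 * (n ^ 2 * N) := by
    ring
  rw [e1] at h3
  linarith

theorem rawC (hH : ∀ e ∈ H, e.card = 3) (hF : K53Free H) :
    6 * ((Fintype.card V : ℤ) * ((Fintype.card V : ℤ) * (mixed H : ℤ) + Dk (tri H) 3))
      ≤ 2 * (Fintype.card V : ℤ) ^ 3 * Dk (tri H) 1 + 3 * ((Fintype.card V : ℤ) ^ 2 * Dk (tri H) 2) := by
  have h := CC.raw (tri_sy H) (tri_noK5 hH hF)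
  have h2 := sv_mixed hH (fun c => ((CC.so (CC.rho c) : ℕ) : ℤ)) 4194304 131070 (by norm_num) soC
  have hn : (0 : ℤ) ≤ (Fintype.card V : ℤ) ^ 2 := by positivity
  have h3 := mul_le_mul_of_nonneg_left h2 hn
  set n := (Fintype.card V : ℤ)
  set N := (mixed H : ℤ)
  have e1 : n ^ 2 * (4194304 * n ^ 4 + 24 * 131070 * N) = 4194304 * n ^ 6 + 3145680 * (n ^ 2 * N) := by
    ring
  rw [e1] at h3
  have e2 : n * (n * N + Dk (tri H) 3) = n ^ 2 * N + n * Dk (tri H) 3 := by ring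
  rw [e2]
  linarith

theorem rawG (hH : ∀ e ∈ H, e.card = 3) (hF : K53Free H) :
    4 * (8 * Dk (tri H) 4 - 36 * (Fintype.card V : ℤ) * Dk (tri H) 3
      + 150 * (Fintype.card V : ℤ) ^ 2 * Dk (tri H) 2 - 145 * (Fintype.card V : ℤ) ^ 3 * Dk (tri H) 1
      + 100 * Dk (tri H) 1 ^ 2) ≤ 101 * (Fintype.card V : ℤ) ^ 6 := by
  have h := CG.raw (tri_sy H) (tri_noK5 hH hF)
  have h2 := sv_mixed hH (fun c => ((CG.so (CG.rho c) : ℕ) : ℤ)) 4398046511104 0 (by norm_num) soG
  have hn : (0 : ℤ) ≤ (Fintype.card V : ℤ) ^ 2 := by positivity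
  have h3 := mul_le_mul_of_nonneg_left h2 hn
  set n := (Fintype.card V : ℤ)
  have e1 : n ^ 2 * (4398046511104 * n ^ 4 + 24 * 0 * (mixed H : ℤ)) = 4398046511104 * n ^ 6 := by
    ring
  rw [e1] at h3
  linarith

end
end Pool.Agent.U348.K5
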