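import Pool.Agent.U348.K5.Maj5

/-! From the three moment inequalities to the bound for the `p`-th moment, `p ≥ 9/5`. -/

set_option autoImplicit false

namespace Pool.Agent.U348.K5.Maj5

theorem two_rpow (t : ℝ) : (2 : ℝ) ^ t = Real.exp (Real.log 2 * t) :=
  Real.rpow_def_of_pos (by norm_num) t

theorem lin_lo {t : ℝ} (h0 : 0 ≤ t) : 1 + 0.693147 * t ≤ (2 : ℝ) ^ t := by
  have hL := Real.log_two_gt_d9
  rw [two_rpow]
  have h := Real.add_one_le_exp (Real.log 2 * t)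
  have h1 : 0.693147 * t ≤ Real.log 2 * t := mul_le_mul_of_nonneg_right (by linarith) h0
  linarith

/-- `4 (1 - 0.6931472 u) ≤ 2 ^ (2 - u)` -/
theorem near2_lo {u : ℝ} (h0 : 0 ≤ u) : 4 * (1 - 0.6931472 * u) ≤ (2 : ℝ) ^ (2 - u) := by
  have hL := Real.log_two_lt_d9
  have e : (2 : ℝ) ^ (2 - u) = 4 * Real.exp (Real.log 2 * (-u)) := by
    rw [sub_eq_add_neg, Real.rpow_add (by norm_num), ← two_rpow]
    norm_num
  rw [e]
  have h := Real.add_one_le_exp (Real.log 2 * (-u))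
  have h1 : Real.log 2 * u ≤ 0.6931472 * u := mul_le_mul_of_nonneg_right (by linarith) h0
  linarith

theorem exp_neg_le {t : ℝ} (h0 : 0 ≤ t) : Real.exp (-t) ≤ 1 - t + t ^ 2 / 2 := by
  have he := Real.sum_le_exp_of_nonneg h0 4
  simp only [Finset.sum_range_succ, Finset.sum_range_zero, Nat.factorial] at he
  norm_num at he
  have hpos : 0 < Real.exp t := Real.exp_pos t
  rw [Real.exp_neg, inv_le_iff_one_le_mul₀ hpos]
  have hq : 0 ≤ 1 - t + t ^ 2 / 2 := by nlinarith [sq_nonneg (t - 1)]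
  have h1 := mul_le_mul_of_nonneg_left he hq
  refine le_trans ?_ h1
  have h3 : 0 ≤ t ^ 3 := by positivity
  have h4 : 0 ≤ t ^ 4 := by positivity
  have h5 : 0 ≤ t ^ 5 := by positivity
  nlinarith

/-- `2 ^ (2 - u) ≤ 4 (1 - 0.693147 u + 0.240227 u²)` -/
theorem near2_up {u : ℝ} (h0 : 0 ≤ u) (h1 : u ≤ 1) :
    (2 : ℝ) ^ (2 - u) ≤ 4 * (1 - 0.693147 * u + 0.240227 * u ^ 2) := by
  have hL := Real.log_two_gt_d9
  have hL' := Real.log_two_lt_d9
  have e : (2 : ℝ) ^ (2 - u) = 4 * Real.exp (-(Real.log 2 * u)) := by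
    rw [sub_eq_add_neg, Real.rpow_add (by norm_num), two_rpow (-u)]
    norm_num
  rw [e]
  have ht : 0 ≤ Real.log 2 * u := mul_nonneg (by linarith) h0
  have h := exp_neg_le ht
  have h2 : 0.693147 * u ≤ Real.log 2 * u := mul_le_mul_of_nonneg_right (by linarith) h0
  have h3 : (Real.log 2 * u) ^ 2 ≤ (0.6931472 * u) ^ 2 :=
    pow_le_pow_left₀ ht (mul_le_mul_of_nonneg_right (by linarith) h0) 2
  nlinarith [sq_nonneg u]

theorem nine_fifths : (3.4819 : ℝ) ≤ (2 : ℝ) ^ (9 / 5 : ℝ) := by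
  have h8 : ((2 : ℝ) ^ (9 / 5 : ℝ)) ^ 5 = 512 := by
    rw [← Real.rpow_natCast, ← Real.rpow_mul (by norm_num)]
    norm_num
  have hpos : 0 < (2 : ℝ) ^ (9 / 5 : ℝ) := Real.rpow_pos_of_pos (by norm_num) _
  by_contra hcon
  push Not at hcon
  have := pow_lt_pow_left₀ hcon hpos.le (n := 5) (by norm_num)
  rw [h8] at this
  norm_num at this

/-- for `9/5 ≤ p ≤ 2` -/
theorem w1 {p : ℝ} (h1 : 9 / 5 ≤ p) : (91 * p + 66) / 66 ≤ (2 : ℝ) ^ p := by
  have hv : 0 ≤ p - 9 / 5 := by linarith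
  have h := lin_lo hv
  have e : (2 : ℝ) ^ p = (2 : ℝ) ^ (9 / 5 : ℝ) * (2 : ℝ) ^ (p - 9 / 5) := by
    rw [← Real.rpow_add (by norm_num)]
    congr 1
    ring
  rw [e]
  have h2 := mul_le_mul nine_fifths h (by nlinarith) (by positivity)
  refine le_trans ?_ h2
  nlinarith

theorem w2 {p : ℝ} (h2 : p ≤ 2) : 17 * p - 10 ≤ 6 * (2 : ℝ) ^ p := by
  have h := near2_lo (u := 2 - p) (by linarith)
  rw [show 2 - (2 - p) = p by ring] at h
  nlinarith

theorem w3 {p : ℝ} (h1 : 9 / 5 ≤ p) (h2 : p ≤ 2) : (70 - 16 * p) * (2 : ℝ) ^ p ≤ 70 + 41 * p := by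
  have hu : 0 ≤ 2 - p := by linarith
  have h := near2_up hu (by linarith)
  rw [show 2 - (2 - p) = p by ring] at h
  obtain ⟨u, rfl⟩ : ∃ u, p = 2 - u := ⟨2 - p, by ring⟩
  have hu' : 0 ≤ u := by linarith
  have hu1 : u ≤ 1 / 5 := by linarith
  rw [show 2 - (2 - u) = u by ring] at h
  have h3 := mul_le_mul_of_nonneg_left h (show 0 ≤ 70 - 16 * (2 - u) by linarith)
  refine h3.trans ?_
  have h4 : 0 ≤ u * (1 / 5 - u) := mul_nonneg hu' (by linarith)
  have h5 : 0 ≤ u ^ 2 * (1 / 5 - u) := mul_nonneg (by positivity) (by linarith)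
  have h6 : 0 ≤ u ^ 2 := by positivity
  nlinarith

theorem w4 {p : ℝ} (h1 : 9 / 5 ≤ p) (h2 : p ≤ 2) : 2 * (2 : ℝ) ^ p ≤ 3 * p + 2 := by
  have hu : 0 ≤ 2 - p := by linarith
  have h := near2_up hu (by linarith)
  rw [show 2 - (2 - p) = p by ring] at h
  nlinarith

theorem w5 {p : ℝ} (h1 : 2 ≤ p) : 3 * p + 2 ≤ 2 * (2 : ℝ) ^ p := by
  have h := lin_lo (t := p - 2) (by linarith)
  have e : (2 : ℝ) ^ p = 4 * (2 : ℝ) ^ (p - 2) := by
    have : (4 : ℝ) = (2 : ℝ) ^ (2 : ℝ) := by norm_num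
    rw [this, ← Real.rpow_add (by norm_num)]
    congr 1
    ring
  rw [e]
  nlinarith

theorem w6 {p : ℝ} (h1 : 2 ≤ p) (h : 4 * p + 1 < (2 : ℝ) ^ p) : 3 ≤ p := by
  by_contra hcon
  push Not at hcon
  have h2 : (2 : ℝ) ^ p ≤ (2 : ℝ) ^ (3 : ℝ) := Real.rpow_le_rpow_of_exponent_le (by norm_num) hcon.le
  norm_num at h2
  linarith

theorem phi_nonneg {x : ℝ} (h1 : x ≤ 1) : 0 ≤ phi x :=
  mul_nonneg (sq_nonneg _) (by linarith)

/-- a polynomial of degree four that dominates `x ^ p` and has the right mean -/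
theorem exists_poly (p : ℝ) (hp : 9 / 5 ≤ p) (M1 M2 M3 M4 : ℝ) (hA : 9 * M2 ≤ 6 * M1 + 2 * M1 ^ 2)
    (hC : 6 * M3 ≤ 2 * M1 + 3 * M2)
    (hG : 4 * (8 * M4 - 36 * M3 + 150 * M2 - 145 * M1 + 100 * M1 ^ 2) ≤ 101)
    (hR : 0 ≤ 8 * M4 - 36 * M3 + 50 * M2 - 27 * M1 + 5) (h0 : 0 ≤ M1) :
    ∃ a0 a1 a2 a3 a4 : ℝ, (∀ x : ℝ, 0 ≤ x → x ≤ 1 →
      x ^ p ≤ a0 + a1 * x + a2 * x ^ 2 + a3 * x ^ 3 + a4 * x ^ 4) ∧
      a0 + a1 * M1 + a2 * M2 + a3 * M3 + a4 * M4 ≤ (1 + (1 / 2 : ℝ) ^ p) / 2 := by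
  have hq0 : (0 : ℝ) < (2 : ℝ) ^ p := Real.rpow_pos_of_pos (by norm_num) _
  have hθ : (1 / 2 : ℝ) ^ p * (2 : ℝ) ^ p = 1 := by
    rw [← Real.mul_rpow (by norm_num) (by norm_num)]
    norm_num
  have hθ0 : 0 < (1 / 2 : ℝ) ^ p := Real.rpow_pos_of_pos (by norm_num) _
  -- the second moment
  have hI1 : M2 ≤ 5 / 8 := by
    rcases le_total M1 (3 / 4) with h | h
    · nlinarith
    · nlinarith [sq_nonneg (M1 - 3 / 4)]
  have hI2 : 6 * M2 ≤ 5 * M1 := by
    rcases le_total M1 (3 / 4) with h | h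
    · nlinarith
    · linarith
  have hI3 : 4 * M3 ≤ 3 * M1 := by linarith
  set θ : ℝ := (1 / 2 : ℝ) ^ p with hθd
  set q : ℝ := (2 : ℝ) ^ p with hqd
  have cancel : ∀ u v : ℝ, u ≤ v * q → θ * u ≤ v := by
    intro u v h
    have h1 := mul_le_mul_of_nonneg_left h hθ0.le
    have h2 : θ * (v * q) = v := by
      calc θ * (v * q) = v * (θ * q) := by ring
        _ = v := by rw [hθ, mul_one]
    linarith
  have cancel' : ∀ u v : ℝ, v * q ≤ u → v ≤ θ * u := by
    intro u v h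
    have h1 := mul_le_mul_of_nonneg_left h hθ0.le
    have h2 : θ * (v * q) = v := by
      calc θ * (v * q) = v * (θ * q) := by ring
        _ = v := by rw [hθ, mul_one]
    linarith
  rcases le_total p 2 with h | h
  · -- 9/5 ≤ p ≤ 2
    have c1 : θ * (91 * p + 66) ≤ 66 := cancel _ _ (by have := w1 hp; linarith)
    have c2 : θ * (17 * p - 10) ≤ 6 := cancel _ _ (w2 h)
    have c3 : (70 - 16 * p) ≤ θ * (70 + 41 * p) := cancel' _ _ (w3 hp h)
    have c4 : (2 : ℝ) ≤ θ * (3 * p + 2) := cancel' _ _ (w4 hp h)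
    -- K = B - D
    set K : ℝ := 2 * p * θ - 4 * (1 - θ - p * θ) with hK
    have hK0 : 0 ≤ K := by rw [hK]; nlinarith
    have hK1 : 25 * K ≤ 8 * (4 * (1 - θ - p * θ)) := by rw [hK]; nlinarith
    have hal : al p θ ≤ 5 / 8 * K := by rw [hK]; unfold al; nlinarith
    have hbe : be p θ ≤ 3 / 8 * K := by rw [hK]; unfold be; nlinarith
    refine ⟨θ - p * θ + (1 - θ - p * θ) + K * (5 / 32), K - K * (27 / 32),
      4 * (1 - θ - p * θ) + K * (50 / 32), -(K * (36 / 32)), K * (8 / 32), ?_, ?_⟩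
    · intro x hx hx1
      have h1 := majF p (by linarith) h x hx hx1
      rw [← hθd] at h1
      have hph := phi_nonneg hx1
      have h2 : al p θ * (1 - x) + be p θ * x ≤ K * (5 / 8 - x / 4) := by
        have a1 := mul_le_mul_of_nonneg_right hal (show 0 ≤ 1 - x by linarith)
        have a2 := mul_le_mul_of_nonneg_right hbe hx
        nlinarith
      have h3 := mul_le_mul_of_nonneg_right h2 hph
      have h4 : x ^ p ≤ qq p θ x + K * (5 / 8 - x / 4) * phi x := by linarith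
      refine h4.trans (le_of_eq ?_)
      rw [hK]
      unfold qq phi
      ring
    · -- the mean
      have h5 : 100 * M2 + 32 * M1 + (8 * M4 - 36 * M3 + 50 * M2 - 27 * M1 + 5) ≤ 173 / 2 := by
        nlinarith [sq_nonneg (M1 - 3 / 4)]
      have h6 := mul_le_mul_of_nonneg_left h5 hK0
      have h7 : 0 ≤ (4 * (1 - θ - p * θ)) - 25 / 8 * K := by linarith
      have h8 := mul_le_mul_of_nonneg_left hI1 h7
      have e1 : θ - p * θ + (1 - θ - p * θ) + K * (5 / 32) + (K - K * (27 / 32)) * M1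
          + (4 * (1 - θ - p * θ) + K * (50 / 32)) * M2 + -(K * (36 / 32)) * M3 + K * (8 / 32) * M4
          = (θ - p * θ + (1 - θ - p * θ)) + (4 * (1 - θ - p * θ) - 25 / 8 * K) * M2
            + 1 / 32 * (K * (100 * M2 + 32 * M1 + (8 * M4 - 36 * M3 + 50 * M2 - 27 * M1 + 5))) := by
        ring
      rw [e1]
      have e2 : (1 + θ) / 2 = (θ - p * θ + (1 - θ - p * θ))
          + (4 * (1 - θ - p * θ) - 25 / 8 * K) * (5 / 8) + 1 / 32 * (K * (173 / 2)) := by
        rw [hK]; ring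
      rw [e2]
      linarith
  · -- 2 ≤ p
    have c5 : θ * (3 * p + 2) ≤ 2 := cancel _ _ (w5 h)
    have hBD : 0 ≤ 4 * (1 - θ - p * θ) - 2 * p * θ := by nlinarith
    rcases le_total q (4 * p + 1) with h' | h'
    · have c6 : (1 : ℝ) ≤ θ * (4 * p + 1) := cancel' _ _ (by linarith)
      refine ⟨θ - p * θ + (1 - θ - p * θ), 2 * p * θ - 4 * (1 - θ - p * θ),
        4 * (1 - θ - p * θ), 0, 0, ?_, ?_⟩
      · intro x hx hx1
        have h1 := majQ p h x hx hx1
        rw [← hθd] at h1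
        refine h1.trans (le_of_eq ?_)
        unfold qq
        ring
      · have h9 : 0 ≤ 6 * (2 * p * θ) - 4 * (1 - θ - p * θ) := by nlinarith
        have h10 := mul_le_mul_of_nonneg_left hI1 h9
        have h11 := mul_le_mul_of_nonneg_left hI2 hBD
        nlinarith
    · have hlt : 3 ≤ p := by
        rcases h'.eq_or_lt with h'' | h''
        · by_contra hcon
          push Not at hcon
          have h2 : (2 : ℝ) ^ p ≤ (2 : ℝ) ^ (3 : ℝ) :=
            Real.rpow_le_rpow_of_exponent_le (by norm_num) hcon.le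
          norm_num at h2
          linarith
        · exact w6 h h''
      have c7 : θ * (4 * p + 1) ≤ 1 := cancel _ _ (by linarith)
      have h12 : 0 ≤ 4 * (1 - θ - p * θ) / 2 - 3 * (2 * p * θ) := by nlinarith
      refine ⟨(1 + θ) / 2, -(11 / 4 * (2 * p * θ) + 3 / 8 * (4 * (1 - θ - p * θ))),
        6 * (2 * p * θ), 4 * (1 - θ - p * θ) / 2 - 3 * (2 * p * θ), 0, ?_, ?_⟩
      · intro x hx hx1
        have h1 := majC p hlt x hx hx1
        rw [← hθd] at h1
        have hph := phi_nonneg hx1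
        have h13 : 0 ≤ 3 * (2 * p * θ) - 4 * (1 - θ - p * θ) / 2 + 4 * qq p θ 0 := by
          unfold qq
          have : 0 < p := by linarith
          have h14 : 0 ≤ p * θ := by positivity
          nlinarith
        have h15 := mul_nonneg h13 hph
        have h16 : x ^ p ≤ qq p θ x + (3 * (2 * p * θ) - 4 * (1 - θ - p * θ) / 2) * phi x := by
          linarith
        refine h16.trans (le_of_eq ?_)
        unfold qq phi
        ring
      · have hpθ : 0 ≤ 2 * p * θ := by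
          have : 0 < p := by linarith
          positivity
        have h17 := mul_le_mul_of_nonneg_left hI2 hpθ
        have h18 := mul_le_mul_of_nonneg_left hI3 h12
        nlinarith

end Pool.Agent.U348.K5.Maj5
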