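import Pool.Agent.U348.K5.Ineq
import Pool.Agent.U348.K5.Wts5

/-! The `p`-th powers of the codegrees of a 3-graph without a complete 3-graph on five vertices,
`p ≥ 9/5`. -/

set_option autoImplicit false
open Finset
open scoped Classical

namespace Pool.Agent.U348.K5
open Pool.Agent.H122R2.N6 Pool.Agent.H37R3.K5

section
variable {V : Type} [Fintype V]

theorem dn_nonneg' (E : V → V → V → ℕ) (a b : V) : 0 ≤ dn E a b := by
  unfold dn
  positivity

theorem dn_le_one {E : V → V → V → ℕ} (hE : Sy E) (hn : 0 < Fintype.card V) (a b : V) :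
    dn E a b ≤ 1 := by
  unfold dn
  have hn' : (0 : ℝ) < (Fintype.card V : ℝ) := by exact_mod_cast hn
  rw [div_le_one hn']
  have h : ∑ c, (E a b c : ℝ) ≤ ∑ _c : V, (1 : ℝ) := by
    refine sum_le_sum fun c _ => ?_
    have := Bt_lt (hE.b a b c)
    exact_mod_cast Nat.lt_succ_iff.mp this
  simpa using h

/-- the relative `k`-th moment of the codegrees -/
noncomputable def Mk (E : V → V → V → ℕ) (k : ℕ) : ℝ :=
  (∑ a, ∑ b, dn E a b ^ k) / (Fintype.card V : ℝ) ^ 2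

theorem Dk_Mk (E : V → V → V → ℕ) (hn : 0 < Fintype.card V) (k : ℕ) :
    (Dk E k : ℝ) = (Fintype.card V : ℝ) ^ (k + 2) * Mk E k := by
  have hn' : (0 : ℝ) < (Fintype.card V : ℝ) := by exact_mod_cast hn
  have e : (Dk E k : ℝ) = (Fintype.card V : ℝ) ^ k * ∑ a, ∑ b, dn E a b ^ k := by
    unfold Dk
    push_cast
    rw [mul_sum]
    refine sum_congr rfl fun a _ => ?_
    rw [mul_sum]
    refine sum_congr rfl fun b _ => ?_
    rw [← mul_pow]
    congr 1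
    unfold dn
    field_simp
  rw [e]
  unfold Mk
  rw [pow_add]
  field_simp

theorem Mk_sum (E : V → V → V → ℕ) (hn : 0 < Fintype.card V) (a0 a1 a2 a3 a4 : ℝ) :
    ∑ a, ∑ b, (a0 + a1 * dn E a b + a2 * dn E a b ^ 2 + a3 * dn E a b ^ 3 + a4 * dn E a b ^ 4) =
      (Fintype.card V : ℝ) ^ 2 * (a0 + a1 * Mk E 1 + a2 * Mk E 2 + a3 * Mk E 3 + a4 * Mk E 4) := by
  have hn' : (0 : ℝ) < (Fintype.card V : ℝ) := by exact_mod_cast hn
  unfold Mk
  simp only [sum_add_distrib, ← mul_sum, sum_const, card_univ, nsmul_eq_mul, pow_one]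
  field_simp

/-- the inequalities for the moments -/
theorem mom_ineq {H : Finset (Finset V)} (hH : ∀ e ∈ H, e.card = 3) (hF : K53Free H)
    (hn : 0 < Fintype.card V) :
    9 * Mk (tri H) 2 ≤ 6 * Mk (tri H) 1 + 2 * Mk (tri H) 1 ^ 2 ∧
    6 * Mk (tri H) 3 ≤ 2 * Mk (tri H) 1 + 3 * Mk (tri H) 2 ∧
    4 * (8 * Mk (tri H) 4 - 36 * Mk (tri H) 3 + 150 * Mk (tri H) 2 - 145 * Mk (tri H) 1
      + 100 * Mk (tri H) 1 ^ 2) ≤ 101 ∧
    0 ≤ 8 * Mk (tri H) 4 - 36 * Mk (tri H) 3 + 50 * Mk (tri H) 2 - 27 * Mk (tri H) 1 + 5 ∧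
    0 ≤ Mk (tri H) 1 := by
  have hE := tri_sy H
  have hn' : (0 : ℝ) < (Fintype.card V : ℝ) := by exact_mod_cast hn
  have hA := rawA hH hF
  have hC := rawC hH hF
  have hG := rawG hH hF
  have hN : (0 : ℝ) ≤ (mixed H : ℝ) := by positivity
  have hA' : (9 : ℝ) * ((Fintype.card V : ℝ) ^ 2 * ((mixed H : ℝ) + (Dk (tri H) 2 : ℝ)))
      ≤ 6 * (Fintype.card V : ℝ) ^ 3 * (Dk (tri H) 1 : ℝ) + 2 * (Dk (tri H) 1 : ℝ) ^ 2 := by
    exact_mod_cast hA
  have hC' : (6 : ℝ) * ((Fintype.card V : ℝ) * ((Fintype.card V : ℝ) * (mixed H : ℝ) + (Dk (tri H) 3 : ℝ)))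
      ≤ 2 * (Fintype.card V : ℝ) ^ 3 * (Dk (tri H) 1 : ℝ)
        + 3 * ((Fintype.card V : ℝ) ^ 2 * (Dk (tri H) 2 : ℝ)) := by
    exact_mod_cast hC
  have hG' : (4 : ℝ) * (8 * (Dk (tri H) 4 : ℝ) - 36 * (Fintype.card V : ℝ) * (Dk (tri H) 3 : ℝ)
      + 150 * (Fintype.card V : ℝ) ^ 2 * (Dk (tri H) 2 : ℝ)
      - 145 * (Fintype.card V : ℝ) ^ 3 * (Dk (tri H) 1 : ℝ)
      + 100 * (Dk (tri H) 1 : ℝ) ^ 2) ≤ 101 * (Fintype.card V : ℝ) ^ 6 := by
    exact_mod_cast hG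
  rw [Dk_Mk _ hn 1, Dk_Mk _ hn 2] at hA'
  rw [Dk_Mk _ hn 1, Dk_Mk _ hn 2, Dk_Mk _ hn 3] at hC'
  rw [Dk_Mk _ hn 1, Dk_Mk _ hn 2, Dk_Mk _ hn 3, Dk_Mk _ hn 4] at hG'
  have h6 : 0 < (Fintype.card V : ℝ) ^ 6 := by positivity
  set n : ℝ := (Fintype.card V : ℝ) with hnd
  set M1 := Mk (tri H) 1 with hM1
  set M2 := Mk (tri H) 2 with hM2
  set M3 := Mk (tri H) 3 with hM3
  set M4 := Mk (tri H) 4 with hM4
  have A : 9 * M2 ≤ 6 * M1 + 2 * M1 ^ 2 := by
    have h1 : n ^ 6 * (9 * M2) ≤ n ^ 6 * (6 * M1 + 2 * M1 ^ 2) := by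
      have h2 : 0 ≤ n ^ 2 * (mixed H : ℝ) := by positivity
      calc n ^ 6 * (9 * M2) ≤ 9 * (n ^ 2 * ((mixed H : ℝ) + n ^ (2 + 2) * M2)) := by
            have : 9 * (n ^ 2 * ((mixed H : ℝ) + n ^ (2 + 2) * M2)) =
              9 * (n ^ 2 * (mixed H : ℝ)) + n ^ 6 * (9 * M2) := by ring
            rw [this]; linarith
        _ ≤ _ := hA'
        _ = _ := by ring
    exact le_of_mul_le_mul_left h1 h6
  have C : 6 * M3 ≤ 2 * M1 + 3 * M2 := by
    have h1 : n ^ 6 * (6 * M3) ≤ n ^ 6 * (2 * M1 + 3 * M2) := by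
      have h2 : 0 ≤ n ^ 2 * (mixed H : ℝ) := by positivity
      calc n ^ 6 * (6 * M3) ≤ 6 * (n * (n * (mixed H : ℝ) + n ^ (3 + 2) * M3)) := by
            have : 6 * (n * (n * (mixed H : ℝ) + n ^ (3 + 2) * M3)) =
              6 * (n ^ 2 * (mixed H : ℝ)) + n ^ 6 * (6 * M3) := by ring
            rw [this]; linarith
        _ ≤ _ := hC'
        _ = _ := by ring
    exact le_of_mul_le_mul_left h1 h6
  have G : 4 * (8 * M4 - 36 * M3 + 150 * M2 - 145 * M1 + 100 * M1 ^ 2) ≤ 101 := by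
    have h1 : n ^ 6 * (4 * (8 * M4 - 36 * M3 + 150 * M2 - 145 * M1 + 100 * M1 ^ 2))
        ≤ n ^ 6 * 101 := by
      calc _ = 4 * (8 * (n ^ (4 + 2) * M4) - 36 * n * (n ^ (3 + 2) * M3)
            + 150 * n ^ 2 * (n ^ (2 + 2) * M2) - 145 * n ^ 3 * (n ^ (1 + 2) * M1)
            + 100 * (n ^ (1 + 2) * M1) ^ 2) := by ring
        _ ≤ _ := hG'
        _ = _ := by ring
    exact le_of_mul_le_mul_left h1 h6
  have R : 0 ≤ 8 * M4 - 36 * M3 + 50 * M2 - 27 * M1 + 5 := by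
    have h1 := Mk_sum (tri H) hn 5 (-27) 50 (-36) 8
    have h2 : 0 ≤ ∑ a, ∑ b, ((5 : ℝ) + (-27) * dn (tri H) a b + 50 * dn (tri H) a b ^ 2
        + (-36) * dn (tri H) a b ^ 3 + 8 * dn (tri H) a b ^ 4) := by
      refine sum_nonneg fun a _ => sum_nonneg fun b _ => ?_
      have hx0 := dn_nonneg' (tri H) a b
      have hx1 := dn_le_one hE hn a b
      set x := dn (tri H) a b
      have : (5 : ℝ) + (-27) * x + 50 * x ^ 2 + (-36) * x ^ 3 + 8 * x ^ 4
          = (5 - 2 * x) * ((2 * x - 1) ^ 2 * (1 - x)) := by ring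
      rw [this]
      exact mul_nonneg (by linarith) (mul_nonneg (sq_nonneg _) (by linarith))
    rw [h1] at h2
    have h3 : 0 < (Fintype.card V : ℝ) ^ 2 := by positivity
    have h4 := nonneg_of_mul_nonneg_right h2 h3
    linarith
  have hM10 : 0 ≤ M1 := by
    rw [hM1]
    unfold Mk
    refine div_nonneg (sum_nonneg fun a _ => sum_nonneg fun b _ => ?_) (by positivity)
    exact pow_nonneg (dn_nonneg' _ _ _) _
  exact ⟨A, C, G, R, hM10⟩

theorem lp5_main {H : Finset (Finset V)} (hH : ∀ e ∈ H, e.card = 3) (hF : K53Free H)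
    (hn : 0 < Fintype.card V) (p : ℝ) (hp : 9 / 5 ≤ p) :
    ∑ a, ∑ b, dn (tri H) a b ^ p ≤ (1 + (1 / 2 : ℝ) ^ p) / 2 * (Fintype.card V : ℝ) ^ 2 := by
  have hE := tri_sy H
  obtain ⟨A, C, G, R, hM10⟩ := mom_ineq hH hF hn
  set M1 := Mk (tri H) 1 with hM1
  set M2 := Mk (tri H) 2 with hM2
  set M3 := Mk (tri H) 3 with hM3
  set M4 := Mk (tri H) 4 with hM4
  obtain ⟨a0, a1, a2, a3, a4, hmaj, hmean⟩ := Maj5.exists_poly p hp M1 M2 M3 M4 A C G R hM10
  have h1 : ∑ a, ∑ b, dn (tri H) a b ^ p ≤ ∑ a, ∑ b, (a0 + a1 * dn (tri H) a b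
      + a2 * dn (tri H) a b ^ 2 + a3 * dn (tri H) a b ^ 3 + a4 * dn (tri H) a b ^ 4) :=
    sum_le_sum fun a _ => sum_le_sum fun b _ => hmaj _ (dn_nonneg' _ _ _) (dn_le_one hE hn _ _)
  rw [Mk_sum (tri H) hn] at h1
  have h2 := mul_le_mul_of_nonneg_left hmean (show 0 ≤ (Fintype.card V : ℝ) ^ 2 by positivity)
  calc _ ≤ _ := h1
    _ ≤ _ := h2
    _ = _ := by ring

theorem deg2_fsum {H : Finset (Finset V)} (hH : ∀ e ∈ H, e.card = 3) (f : ℕ → ℝ) (hf0 : f 0 = 0) :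
    ∑ a, ∑ b, f (∑ c, tri H a b c) = 2 * ∑ P ∈ (univ : Finset V).powersetCard 2, f (deg2 H P) := by
  have h1 : ∑ p ∈ (univ : Finset V).offDiag, f (deg2 H {p.1, p.2}) = ∑ a, ∑ b, f (∑ c, tri H a b c) := by
    rw [← Fintype.sum_prod_type' (f := fun a b => f (∑ c, tri H a b c))]
    calc ∑ p ∈ (univ : Finset V).offDiag, f (deg2 H {p.1, p.2})
        = ∑ p ∈ (univ : Finset V).offDiag, f (∑ c, tri H p.1 p.2 c) := by
          refine sum_congr rfl fun p hp => ?_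
          rw [tri_sum_ne hH (mem_offDiag.mp hp).2.2]
      _ = ∑ p : V × V, f (∑ c, tri H p.1 p.2 c) := by
          refine sum_subset (subset_univ _) fun p _ hp => ?_
          have he : p.1 = p.2 := by
            by_contra hne
            exact hp (mem_offDiag.mpr ⟨mem_univ _, mem_univ _, hne⟩)
          rw [← he, tri_sum_eq hH, hf0]
  rw [← h1]
  -- real version of `pair_sum`
  rw [← sum_fiberwise_of_maps_to (s := (univ : Finset V).offDiag)
    (t := (univ : Finset V).powersetCard 2) (g := fun p => ({p.1, p.2} : Finset V))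
    (f := fun p => f (deg2 H {p.1, p.2})) ?_, mul_sum]
  · refine sum_congr rfl fun P hP => ?_
    have h2 := pair_sum (V := V) (fun Q => if Q = P then (1 : ℤ) else 0)
    have h3 : ∑ Q ∈ (univ : Finset V).powersetCard 2, (if Q = P then (1 : ℤ) else 0) = 1 := by
      rw [sum_ite_eq' _ P, if_pos hP]
    rw [h3] at h2
    have h4 : ((univ : Finset V).offDiag.filter (fun p => ({p.1, p.2} : Finset V) = P)).card = 2 := by
      have : (((univ : Finset V).offDiag.filter (fun p => ({p.1, p.2} : Finset V) = P)).card : ℤ) = 2 := by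
        rw [card_filter]
        push_cast
        linarith
      exact_mod_cast this
    calc ∑ p ∈ (univ : Finset V).offDiag.filter (fun p => ({p.1, p.2} : Finset V) = P),
          f (deg2 H {p.1, p.2})
        = ∑ p ∈ (univ : Finset V).offDiag.filter (fun p => ({p.1, p.2} : Finset V) = P),
          f (deg2 H P) := sum_congr rfl fun p hp => by rw [(mem_filter.mp hp).2]
      _ = 2 * f (deg2 H P) := by
          rw [sum_const, h4, nsmul_eq_mul]
          norm_num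
  · intro p hp
    rw [mem_powersetCard]
    exact ⟨subset_univ _, card_pair (mem_offDiag.mp hp).2.2⟩

/-- the bound in terms of the codegrees of the pairs -/
theorem lp5_pairs {H : Finset (Finset V)} (hH : ∀ e ∈ H, e.card = 3) (hF : K53Free H) (p : ℝ)
    (hp : 9 / 5 ≤ p) :
    ∑ P ∈ (univ : Finset V).powersetCard 2, (deg2 H P : ℝ) ^ p
      ≤ (1 + (1 / 2 : ℝ) ^ p) / 4 * (Fintype.card V : ℝ) ^ (p + 2) := by
  have hp0 : 0 < p := by linarith
  rcases Nat.eq_zero_or_pos (Fintype.card V) with h0 | hn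
  · haveI := Fintype.card_eq_zero_iff.mp h0
    have : (univ : Finset V).powersetCard 2 = ∅ := by
      rw [powersetCard_eq_empty, card_univ, h0]
      norm_num
    rw [this, sum_empty]
    positivity
  have hn' : (0 : ℝ) < (Fintype.card V : ℝ) := by exact_mod_cast hn
  have hm := lp5_main hH hF hn p hp
  have hd := deg2_fsum hH (fun k : ℕ => (k : ℝ) ^ p) (by
    show ((0 : ℕ) : ℝ) ^ p = 0
    rw [Nat.cast_zero, Real.zero_rpow hp0.ne'])
  have e1 : ∑ a, ∑ b, ((∑ c, tri H a b c : ℕ) : ℝ) ^ p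
      = (Fintype.card V : ℝ) ^ p * ∑ a, ∑ b, dn (tri H) a b ^ p := by
    rw [mul_sum]
    refine sum_congr rfl fun a _ => ?_
    rw [mul_sum]
    refine sum_congr rfl fun b _ => ?_
    rw [← Real.mul_rpow hn'.le (dn_nonneg' _ a b)]
    unfold dn
    congr 1
    push_cast
    field_simp
  rw [e1] at hd
  have e2 : (1 + (1 / 2 : ℝ) ^ p) / 4 * (Fintype.card V : ℝ) ^ (p + 2)
      = 1 / 2 * ((Fintype.card V : ℝ) ^ p * ((1 + (1 / 2 : ℝ) ^ p) / 2 * (Fintype.card V : ℝ) ^ 2)) := by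
    rw [Real.rpow_add hn', Real.rpow_two]
    ring
  rw [e2]
  have h5 := mul_le_mul_of_nonneg_left hm (Real.rpow_nonneg hn'.le p)
  linarith

end
end Pool.Agent.U348.K5
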