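import Pool.Agent.H122R2.N6.Maj

/-! Majorisation of `x ^ p` on `[0,1]` by Hermite interpolants at `0`, `1/2`, `1`. -/

set_option autoImplicit false

namespace Pool.Agent.U348.K5.Maj5
open Pool.Agent.H122R2.N6.Maj

/-- three zeros of the first derivative give a zero of the third -/
theorem z3 (p : ℝ) (P1 P2 P3 : ℝ → ℝ) (h1 : ∀ x, HasDerivAt P1 (P2 x) x)
    (h2 : ∀ x, HasDerivAt P2 (P3 x) x)
    {x1 x2 x3 : ℝ} (hx : 0 < x1) (h12 : x1 < x2) (h23 : x2 < x3)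
    (e1 : p * x1 ^ (p - 1) = P1 x1) (e2 : p * x2 ^ (p - 1) = P1 x2)
    (e3 : p * x3 ^ (p - 1) = P1 x3) :
    ∃ z, 0 < z ∧ p * (p - 1) * (p - 1 - 1) * z ^ (p - 1 - 1 - 1) = P3 z := by
  obtain ⟨y1, a1, b1, f1⟩ := ro _ _ _ _ h1 hx h12 e1 e2
  obtain ⟨y2, a2, b2, f2⟩ := ro _ _ _ _ h1 (hx.trans h12) h23 e2 e3
  obtain ⟨z, k1, k2, k⟩ := ro _ _ _ _ h2 (hx.trans a1) (b1.trans a2) f1 f2
  exact ⟨z, (hx.trans a1).trans k1, k⟩

theorem derivW (w0 w1 w2 w3 w4 w5 : ℝ) (W W1 : ℝ → ℝ)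
    (hW : ∀ y, W y = w0 + w1 * y + w2 * y ^ 2 + w3 * y ^ 3 + w4 * y ^ 4 + w5 * y ^ 5)
    (hW1 : ∀ y, W1 y = w1 + (2 * w2) * y + (3 * w3) * y ^ 2 + (4 * w4) * y ^ 3 + (5 * w5) * y ^ 4) :
    (∀ x, HasDerivAt W (W1 x) x) ∧ (∀ x, HasDerivAt W1 ((2 * w2) + (2 * (3 * w3)) * x
      + (3 * (4 * w4)) * x ^ 2 + (4 * (5 * w5)) * x ^ 3 + (5 * 0) * x ^ 4 + 0 * x ^ 5) x) := by
  constructor
  · intro x
    have h := hq w0 w1 w2 w3 w4 w5 x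
    have e : W = fun y : ℝ => w0 + w1 * y + w2 * y ^ 2 + w3 * y ^ 3 + w4 * y ^ 4 + w5 * y ^ 5 := by
      funext y; exact hW y
    rw [e, hW1]
    convert h using 1
    ring
  · intro x
    have h := hq w1 (2 * w2) (3 * w3) (4 * w4) (5 * w5) 0 x
    have e : W1 = fun y : ℝ => w1 + (2 * w2) * y + (3 * w3) * y ^ 2 + (4 * w4) * y ^ 3
        + (5 * w5) * y ^ 4 + 0 * y ^ 5 := by
      funext y; rw [hW1]; ring
    rw [e]
    exact h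

/-- nodes `1/2` (double), `1` and `d`: sign of the third derivative -/
theorem nodesQ (p : ℝ) (hp : 2 ≤ p) (w0 w1 w2 w3 : ℝ) (W W1 : ℝ → ℝ)
    (hW : ∀ y, W y = w0 + w1 * y + w2 * y ^ 2 + w3 * y ^ 3 + 0 * y ^ 4 + 0 * y ^ 5)
    (hW1 : ∀ y, W1 y = w1 + (2 * w2) * y + (3 * w3) * y ^ 2 + (4 * 0) * y ^ 3 + (5 * 0) * y ^ 4)
    (ha : (1 / 2 : ℝ) ^ p = W (1 / 2)) (ha' : p * (1 / 2 : ℝ) ^ (p - 1) = W1 (1 / 2))
    (hb : (1 : ℝ) ^ p = W 1)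
    (d : ℝ) (hd : 0 ≤ d) (hda : d ≠ 1 / 2) (hdb : d < 1) (he : d ^ p = W d) : 0 ≤ w3 := by
  obtain ⟨hD, hD1⟩ := derivW _ _ _ _ _ _ W W1 hW hW1
  have hp0 : 0 < p := by linarith
  have fin : ∀ {x1 x2 x3 : ℝ}, 0 < x1 → x1 < x2 → x2 < x3 →
      p * x1 ^ (p - 1) = W1 x1 → p * x2 ^ (p - 1) = W1 x2 → p * x3 ^ (p - 1) = W1 x3 → 0 ≤ w3 := by
    intro x1 x2 x3 hx h12 h23 e1 e2 e3
    obtain ⟨z, hz, h⟩ := z3 p W1 _ _ hD1 (hq _ _ _ _ _ _) hx h12 h23 e1 e2 e3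
    have hpos : 0 < z ^ (p - 1 - 1 - 1) := Real.rpow_pos_of_pos hz _
    have hneg : 0 ≤ p * (p - 1) * (p - 1 - 1) :=
      mul_nonneg (mul_nonneg hp0.le (by linarith)) (by linarith)
    have h2 := mul_nonneg hneg hpos.le
    rw [h] at h2
    nlinarith
  rcases lt_or_gt_of_ne hda with h | h
  · obtain ⟨z1, a1, b1, c1⟩ := ro0 p hp0 W W1 hD hd h he ha
    obtain ⟨z2, a2, b2, c2⟩ := ro0 p hp0 W W1 hD (by norm_num) (by norm_num) ha hb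
    exact fin (lt_of_le_of_lt hd a1) b1 a2 c1 ha' c2
  · obtain ⟨z2, a2, b2, c2⟩ := ro0 p hp0 W W1 hD (by norm_num) h ha he
    obtain ⟨z3, a3, b3, c3⟩ := ro0 p hp0 W W1 hD hd hdb he hb
    exact fin (by norm_num) a2 (b2.trans a3) ha' c2 c3

/-- nodes `0`, `1/2` (double), `1` and `d`: sign of the fourth derivative -/
theorem nodesC (p : ℝ) (hp : 3 ≤ p) (w1 w2 w3 w4 : ℝ) (W W1 : ℝ → ℝ)
    (hW : ∀ y, W y = 0 + w1 * y + w2 * y ^ 2 + w3 * y ^ 3 + w4 * y ^ 4 + 0 * y ^ 5)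
    (hW1 : ∀ y, W1 y = w1 + (2 * w2) * y + (3 * w3) * y ^ 2 + (4 * w4) * y ^ 3 + (5 * 0) * y ^ 4)
    (ha : (1 / 2 : ℝ) ^ p = W (1 / 2)) (ha' : p * (1 / 2 : ℝ) ^ (p - 1) = W1 (1 / 2))
    (hb : (1 : ℝ) ^ p = W 1)
    (d : ℝ) (hd : 0 < d) (hda : d ≠ 1 / 2) (hdb : d < 1) (he : d ^ p = W d) : 0 ≤ w4 := by
  obtain ⟨hD, hD1⟩ := derivW _ _ _ _ _ _ W W1 hW hW1
  have hp0 : 0 < p := by linarith
  have h0 : (0 : ℝ) ^ p = W 0 := by rw [Real.zero_rpow hp0.ne', hW]; ring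
  have fin : ∀ {x1 x2 x3 x4 : ℝ}, 0 < x1 → x1 < x2 → x2 < x3 → x3 < x4 →
      p * x1 ^ (p - 1) = W1 x1 → p * x2 ^ (p - 1) = W1 x2 → p * x3 ^ (p - 1) = W1 x3 →
      p * x4 ^ (p - 1) = W1 x4 → 0 ≤ w4 := by
    intro x1 x2 x3 x4 hx h12 h23 h34 e1 e2 e3 e4
    obtain ⟨z, hz, _, h⟩ := z4 p W1 _ _ _ hD1 (hq _ _ _ _ _ _) (hq _ _ _ _ _ _)
      hx h12 h23 h34 e1 e2 e3 e4
    have hpos : 0 < z ^ (p - 1 - 1 - 1 - 1) := Real.rpow_pos_of_pos (hx.trans hz) _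
    have hneg : 0 ≤ p * (p - 1) * (p - 1 - 1) * (p - 1 - 1 - 1) :=
      mul_nonneg (mul_nonneg (mul_nonneg hp0.le (by linarith)) (by linarith)) (by linarith)
    have h2 := mul_nonneg hneg hpos.le
    rw [h] at h2
    nlinarith
  rcases lt_or_gt_of_ne hda with h | h
  · obtain ⟨z1, a1, b1, c1⟩ := ro0 p hp0 W W1 hD le_rfl hd h0 he
    obtain ⟨z2, a2, b2, c2⟩ := ro0 p hp0 W W1 hD hd.le h he ha
    obtain ⟨z3, a3, b3, c3⟩ := ro0 p hp0 W W1 hD (by norm_num) (by norm_num) ha hb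
    exact fin a1 (b1.trans a2) b2 a3 c1 c2 ha' c3
  · obtain ⟨z1, a1, b1, c1⟩ := ro0 p hp0 W W1 hD le_rfl (by norm_num) h0 ha
    obtain ⟨z2, a2, b2, c2⟩ := ro0 p hp0 W W1 hD (by norm_num) h ha he
    obtain ⟨z3, a3, b3, c3⟩ := ro0 p hp0 W W1 hD hd.le hdb he hb
    exact fin a1 b1 a2 (b2.trans a3) c1 ha' c2 c3

/-- nodes `0`, `1/2` (double), `1` (double) and `d`: sign of the fifth derivative -/
theorem nodesF (p : ℝ) (hp1 : 1 < p) (hp2 : p ≤ 2) (w1 w2 w3 w4 w5 : ℝ) (W W1 : ℝ → ℝ)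
    (hW : ∀ y, W y = 0 + w1 * y + w2 * y ^ 2 + w3 * y ^ 3 + w4 * y ^ 4 + w5 * y ^ 5)
    (hW1 : ∀ y, W1 y = w1 + (2 * w2) * y + (3 * w3) * y ^ 2 + (4 * w4) * y ^ 3 + (5 * w5) * y ^ 4)
    (ha : (1 / 2 : ℝ) ^ p = W (1 / 2)) (ha' : p * (1 / 2 : ℝ) ^ (p - 1) = W1 (1 / 2))
    (hb : (1 : ℝ) ^ p = W 1) (hb' : p * (1 : ℝ) ^ (p - 1) = W1 1)
    (d : ℝ) (hd : 0 < d) (hda : d ≠ 1 / 2) (hdb : d < 1) (he : d ^ p = W d) : w5 ≤ 0 := by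
  obtain ⟨hD, hD1⟩ := derivW _ _ _ _ _ _ W W1 hW hW1
  have hp0 : 0 < p := by linarith
  have h0 : (0 : ℝ) ^ p = W 0 := by rw [Real.zero_rpow hp0.ne', hW]; ring
  have fin : ∀ {x1 x2 x3 x4 x5 : ℝ}, 0 < x1 → x1 < x2 → x2 < x3 → x3 < x4 → x4 < x5 →
      p * x1 ^ (p - 1) = W1 x1 → p * x2 ^ (p - 1) = W1 x2 → p * x3 ^ (p - 1) = W1 x3 →
      p * x4 ^ (p - 1) = W1 x4 → p * x5 ^ (p - 1) = W1 x5 → w5 ≤ 0 := by
    intro x1 x2 x3 x4 x5 hx h12 h23 h34 h45 e1 e2 e3 e4 e5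
    obtain ⟨z, hz, h⟩ := z5 p W1 _ _ _ _ hD1 (hq _ _ _ _ _ _) (hq _ _ _ _ _ _) (hq _ _ _ _ _ _)
      hx h12 h23 h34 h45 e1 e2 e3 e4 e5
    have hpos : 0 < z ^ (p - 1 - 1 - 1 - 1 - 1) := Real.rpow_pos_of_pos hz _
    have hneg : p * (p - 1) * (p - 1 - 1) * (p - 1 - 1 - 1) * (p - 1 - 1 - 1 - 1) ≤ 0 := by
      have a1 : 0 ≤ p * (p - 1) := mul_nonneg hp0.le (by linarith)
      have a2 : 0 ≤ (p - 1 - 1 - 1) * (p - 1 - 1 - 1 - 1) :=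
        mul_nonneg_of_nonpos_of_nonpos (by linarith) (by linarith)
      have a3 : p * (p - 1) * (p - 1 - 1) ≤ 0 := mul_nonpos_of_nonneg_of_nonpos a1 (by linarith)
      have : p * (p - 1) * (p - 1 - 1) * (p - 1 - 1 - 1) * (p - 1 - 1 - 1 - 1)
          = (p * (p - 1) * (p - 1 - 1)) * ((p - 1 - 1 - 1) * (p - 1 - 1 - 1 - 1)) := by ring
      rw [this]
      exact mul_nonpos_of_nonpos_of_nonneg a3 a2
    have h2 := mul_nonpos_of_nonpos_of_nonneg hneg hpos.le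
    rw [h] at h2
    nlinarith
  rcases lt_or_gt_of_ne hda with h | h
  · obtain ⟨z1, a1, b1, c1⟩ := ro0 p hp0 W W1 hD le_rfl hd h0 he
    obtain ⟨z2, a2, b2, c2⟩ := ro0 p hp0 W W1 hD hd.le h he ha
    obtain ⟨z3, a3, b3, c3⟩ := ro0 p hp0 W W1 hD (by norm_num) (by norm_num) ha hb
    exact fin a1 (b1.trans a2) b2 a3 b3 c1 c2 ha' c3 hb'
  · obtain ⟨z1, a1, b1, c1⟩ := ro0 p hp0 W W1 hD le_rfl (by norm_num) h0 ha
    obtain ⟨z2, a2, b2, c2⟩ := ro0 p hp0 W W1 hD (by norm_num) h ha he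
    obtain ⟨z3, a3, b3, c3⟩ := ro0 p hp0 W W1 hD hd.le hdb he hb
    exact fin a1 b1 a2 (b2.trans a3) b3 c1 ha' c2 c3 hb'

/-- the quadratic interpolant, `θ = (1/2)^p` -/
noncomputable def qq (p θ x : ℝ) : ℝ :=
  θ + 2 * p * θ * (x - 1 / 2) + 4 * (1 - θ - p * θ) * (x - 1 / 2) ^ 2

noncomputable def phi (x : ℝ) : ℝ := (x - 1 / 2) ^ 2 * (1 - x)

theorem half' (p : ℝ) : (1 / 2 : ℝ) ^ (p - 1) = 2 * (1 / 2 : ℝ) ^ p := by
  rw [Real.rpow_sub_one (by norm_num)]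
  ring

theorem majQ (p : ℝ) (hp : 2 ≤ p) (d : ℝ) (hd : 0 ≤ d) (hd1 : d ≤ 1) :
    d ^ p ≤ qq p ((1 / 2 : ℝ) ^ p) d := by
  have e2 := half' p
  set θ : ℝ := (1 / 2 : ℝ) ^ p with hθ
  by_cases ha : d = 1 / 2
  · rw [ha, ← hθ]; unfold qq; ring_nf; exact le_rfl
  rcases hd1.eq_or_lt with hb | hb
  · rw [hb, Real.one_rpow]; unfold qq; ring_nf; exact le_rfl
  have hs : 0 < (d - 1 / 2) ^ 2 := by
    have : d - 1 / 2 ≠ 0 := sub_ne_zero.mpr ha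
    positivity
  have hden : (d - 1 / 2) ^ 2 * (d - 1) < 0 := mul_neg_of_pos_of_neg hs (by linarith)
  set c : ℝ := (d ^ p - qq p θ d) / ((d - 1 / 2) ^ 2 * (d - 1)) with hc
  have hcd : d ^ p = qq p θ d + c * ((d - 1 / 2) ^ 2 * (d - 1)) := by
    rw [hc, div_mul_cancel₀ _ hden.ne]
    ring
  have hc0 : 0 ≤ c := by
    refine nodesQ p hp
      (θ - p * θ + (1 - θ - p * θ) - c / 4)
      (2 * p * θ - 4 * (1 - θ - p * θ) + 5 / 4 * c)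
      (4 * (1 - θ - p * θ) - 2 * c) c
      (fun y => qq p θ y + c * ((y - 1 / 2) ^ 2 * (y - 1)))
      (fun y => (2 * p * θ - 4 * (1 - θ - p * θ) + 5 / 4 * c)
        + (2 * (4 * (1 - θ - p * θ) - 2 * c)) * y + (3 * c) * y ^ 2 + (4 * 0) * y ^ 3
        + (5 * 0) * y ^ 4) ?_ (fun y => rfl) ?_ ?_ ?_ d hd ha hb hcd
    · intro y
      show qq p θ y + c * ((y - 1 / 2) ^ 2 * (y - 1)) = _
      unfold qq
      ring
    · show θ = qq p θ (1 / 2) + c * ((1 / 2 - 1 / 2) ^ 2 * (1 / 2 - 1))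
      unfold qq
      ring
    · rw [e2]
      ring
    · rw [Real.one_rpow]
      show (1 : ℝ) = qq p θ 1 + c * ((1 - 1 / 2) ^ 2 * (1 - 1))
      unfold qq
      ring
  rw [hcd]
  have := mul_nonpos_of_nonneg_of_nonpos hc0 hden.le
  linarith

theorem majC (p : ℝ) (hp : 3 ≤ p) (d : ℝ) (hd : 0 ≤ d) (hd1 : d ≤ 1) :
    d ^ p ≤ qq p ((1 / 2 : ℝ) ^ p) d - 4 * qq p ((1 / 2 : ℝ) ^ p) 0 * phi d := by
  have e2 := half' p
  set θ : ℝ := (1 / 2 : ℝ) ^ p with hθ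
  have hp0 : 0 < p := by linarith
  rcases hd.eq_or_lt with h | hd'
  · rw [← h, Real.zero_rpow hp0.ne']; unfold qq phi; ring_nf; exact le_rfl
  by_cases ha : d = 1 / 2
  · rw [ha, ← hθ]; unfold qq phi; ring_nf; exact le_rfl
  rcases hd1.eq_or_lt with hb | hb
  · rw [hb, Real.one_rpow]; unfold qq phi; ring_nf; exact le_rfl
  have hs : 0 < (d - 1 / 2) ^ 2 := by
    have : d - 1 / 2 ≠ 0 := sub_ne_zero.mpr ha
    positivity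
  have hden : d * ((d - 1 / 2) ^ 2 * (d - 1)) < 0 :=
    mul_neg_of_pos_of_neg hd' (mul_neg_of_pos_of_neg hs (by linarith))
  set c : ℝ := (d ^ p - (qq p θ d - 4 * qq p θ 0 * phi d)) / (d * ((d - 1 / 2) ^ 2 * (d - 1))) with hc
  have hcd : d ^ p = (qq p θ d - 4 * qq p θ 0 * phi d) + c * (d * ((d - 1 / 2) ^ 2 * (d - 1))) := by
    rw [hc, div_mul_cancel₀ _ hden.ne]
    ring
  have hc0 : 0 ≤ c := by
    refine nodesC p hp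
      (2 * p * θ - 4 * (1 - θ - p * θ) + 5 * (θ - p * θ + (1 - θ - p * θ)) - c / 4)
      (4 * (1 - θ - p * θ) - 8 * (θ - p * θ + (1 - θ - p * θ)) + 5 / 4 * c)
      (4 * (θ - p * θ + (1 - θ - p * θ)) - 2 * c) c
      (fun y => (qq p θ y - 4 * qq p θ 0 * phi y) + c * (y * ((y - 1 / 2) ^ 2 * (y - 1))))
      (fun y => (2 * p * θ - 4 * (1 - θ - p * θ) + 5 * (θ - p * θ + (1 - θ - p * θ)) - c / 4)
        + (2 * (4 * (1 - θ - p * θ) - 8 * (θ - p * θ + (1 - θ - p * θ)) + 5 / 4 * c)) * y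
        + (3 * (4 * (θ - p * θ + (1 - θ - p * θ)) - 2 * c)) * y ^ 2 + (4 * c) * y ^ 3
        + (5 * 0) * y ^ 4) ?_ (fun y => rfl) ?_ ?_ ?_ d hd' ha hb hcd
    · intro y
      show (qq p θ y - 4 * qq p θ 0 * phi y) + c * (y * ((y - 1 / 2) ^ 2 * (y - 1))) = _
      unfold qq phi
      ring
    · show θ = (qq p θ (1 / 2) - 4 * qq p θ 0 * phi (1 / 2))
        + c * (1 / 2 * ((1 / 2 - 1 / 2) ^ 2 * (1 / 2 - 1)))
      unfold qq phi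
      ring
    · rw [e2]
      ring
    · rw [Real.one_rpow]
      show (1 : ℝ) = (qq p θ 1 - 4 * qq p θ 0 * phi 1) + c * (1 * ((1 - 1 / 2) ^ 2 * (1 - 1)))
      unfold qq phi
      ring
  rw [hcd]
  have := mul_nonpos_of_nonneg_of_nonpos hc0 hden.le
  linarith

/-- the values of the linear factor at `0` and `1` -/
noncomputable def al (p θ : ℝ) : ℝ := -(4 * (θ - p * θ + (1 - θ - p * θ)))
noncomputable def be (p θ : ℝ) : ℝ := 4 * (2 * p * θ + 4 * (1 - θ - p * θ) - p)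

theorem majF (p : ℝ) (hp1 : 1 < p) (hp2 : p ≤ 2) (d : ℝ) (hd : 0 ≤ d) (hd1 : d ≤ 1) :
    d ^ p ≤ qq p ((1 / 2 : ℝ) ^ p) d
      + (al p ((1 / 2 : ℝ) ^ p) * (1 - d) + be p ((1 / 2 : ℝ) ^ p) * d) * phi d := by
  have e2 := half' p
  set θ : ℝ := (1 / 2 : ℝ) ^ p with hθ
  have hp0 : 0 < p := by linarith
  rcases hd.eq_or_lt with h | hd'
  · rw [← h, Real.zero_rpow hp0.ne']; unfold qq phi al; ring_nf; exact le_rfl
  by_cases ha : d = 1 / 2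
  · rw [ha, ← hθ]; unfold qq phi; ring_nf; exact le_rfl
  rcases hd1.eq_or_lt with hb | hb
  · rw [hb, Real.one_rpow]; unfold qq phi; ring_nf; exact le_rfl
  have hs : 0 < (d - 1 / 2) ^ 2 := by
    have : d - 1 / 2 ≠ 0 := sub_ne_zero.mpr ha
    positivity
  have hs1 : 0 < (d - 1) ^ 2 := by
    have : d - 1 ≠ 0 := sub_ne_zero.mpr hb.ne
    positivity
  have hden : 0 < d * ((d - 1 / 2) ^ 2 * (d - 1) ^ 2) := mul_pos hd' (mul_pos hs hs1)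
  set F : ℝ → ℝ := fun y => qq p θ y + (al p θ * (1 - y) + be p θ * y) * phi y with hF
  set c : ℝ := (d ^ p - F d) / (d * ((d - 1 / 2) ^ 2 * (d - 1) ^ 2)) with hc
  have hcd : d ^ p = F d + c * (d * ((d - 1 / 2) ^ 2 * (d - 1) ^ 2)) := by
    rw [hc, div_mul_cancel₀ _ hden.ne']
    ring
  have hc0 : c ≤ 0 := by
    refine nodesF p hp1 hp2
      (2 * p * θ - 4 * (1 - θ - p * θ) - 5 / 4 * al p θ + (be p θ - al p θ) / 4 + c / 4)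
      (4 * (1 - θ - p * θ) + 2 * al p θ - 5 / 4 * (be p θ - al p θ) - 3 / 2 * c)
      (-al p θ + 2 * (be p θ - al p θ) + 13 / 4 * c)
      (-(be p θ - al p θ) - 3 * c) c
      (fun y => F y + c * (y * ((y - 1 / 2) ^ 2 * (y - 1) ^ 2)))
      (fun y => (2 * p * θ - 4 * (1 - θ - p * θ) - 5 / 4 * al p θ + (be p θ - al p θ) / 4 + c / 4)
        + (2 * (4 * (1 - θ - p * θ) + 2 * al p θ - 5 / 4 * (be p θ - al p θ) - 3 / 2 * c)) * y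
        + (3 * (-al p θ + 2 * (be p θ - al p θ) + 13 / 4 * c)) * y ^ 2
        + (4 * (-(be p θ - al p θ) - 3 * c)) * y ^ 3
        + (5 * c) * y ^ 4) ?_ (fun y => rfl) ?_ ?_ ?_ ?_ d hd' ha hb hcd
    · intro y
      show qq p θ y + (al p θ * (1 - y) + be p θ * y) * phi y
        + c * (y * ((y - 1 / 2) ^ 2 * (y - 1) ^ 2)) = _
      unfold qq phi al
      ring
    · show θ = qq p θ (1 / 2) + (al p θ * (1 - 1 / 2) + be p θ * (1 / 2)) * phi (1 / 2)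
        + c * (1 / 2 * ((1 / 2 - 1 / 2) ^ 2 * (1 / 2 - 1) ^ 2))
      unfold qq phi
      ring
    · rw [e2]
      ring
    · rw [Real.one_rpow]
      show (1 : ℝ) = qq p θ 1 + (al p θ * (1 - 1) + be p θ * 1) * phi 1
        + c * (1 * ((1 - 1 / 2) ^ 2 * (1 - 1) ^ 2))
      unfold qq phi
      ring
    · rw [Real.one_rpow]
      unfold al be
      ring
  have h1 : d ^ p ≤ F d := by
    rw [hcd]
    have := mul_nonpos_of_nonpos_of_nonneg hc0 hden.le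
    linarith
  exact h1

end Pool.Agent.U348.K5.Maj5
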